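import Mathlib

/-!
# The functions on a (union of) finite field(s) satisfying the five term relation vanish
-/

namespace Pool.Agent.Q22.GW

open Finset

/-- every pair of elements is contained in a finite subfield -/
def LocFin (K : Type*) [Field K] : Prop := ∀ x y : K, ∃ L : Subfield K, Finite L ∧ x ∈ L ∧ y ∈ L

theorem LocFin.order {K : Type*} [Field K] (h : LocFin K) {x : K} (hx : x ≠ 0) :
    ∃ n : ℕ, 0 < n ∧ x ^ n = 1 := by
  obtain ⟨L, hL, hxL, -⟩ := h x x
  have : Fintype L := Fintype.ofFinite L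
  let u : Lˣ := Units.mk0 ⟨x, hxL⟩ (by
    intro h0
    exact hx (congrArg Subtype.val h0))
  refine ⟨orderOf u, orderOf_pos u, ?_⟩
  have h1 := pow_orderOf_eq_one u
  have h2 := congrArg (fun v : Lˣ => ((v : L) : K)) h1
  have h3 : (((u ^ orderOf u : Lˣ) : L) : K) = x ^ orderOf u := by
    rw [Units.val_pow_eq_pow_val]
    rfl
  rw [← h3]
  exact h2

theorem LocFin.cyc {K : Type*} [Field K] (h : LocFin K) {x y : K} (hx : x ≠ 0) (hy : y ≠ 0) :
    ∃ (z : K) (a b : ℕ), z ≠ 0 ∧ x = z ^ a ∧ y = z ^ b := by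
  obtain ⟨L, hL, hxL, hyL⟩ := h x y
  have : Fintype L := Fintype.ofFinite L
  let u : Lˣ := Units.mk0 ⟨x, hxL⟩ (by
    intro h0
    exact hx (congrArg Subtype.val h0))
  let v : Lˣ := Units.mk0 ⟨y, hyL⟩ (by
    intro h0
    exact hy (congrArg Subtype.val h0))
  obtain ⟨g, hg⟩ := IsCyclic.exists_generator (α := Lˣ)
  have hu := hg u
  have hv := hg v
  rw [← mem_powers_iff_mem_zpowers] at hu hv
  obtain ⟨a, ha⟩ := hu
  obtain ⟨b, hb⟩ := hv
  refine ⟨((g : L) : K), a, b, ?_, ?_, ?_⟩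
  · intro h0
    exact g.ne_zero (Subtype.ext h0)
  · have h2 := congrArg (fun w : Lˣ => ((w : L) : K)) ha
    simpa [u] using h2.symm
  · have h2 := congrArg (fun w : Lˣ => ((w : L) : K)) hb
    simpa [v] using h2.symm

/-- finite fields: a function satisfying the five term relation is zero -/
theorem b2zero_fin {L : Type*} [Field L] [Fintype L] [DecidableEq L] (e : L → ℚ)
    (h0 : e 0 = 0) (h1 : e 1 = 0)
    (hinv : ∀ z, e z⁻¹ = - e z)
    (hsub : ∀ z, z ≠ 0 → z ≠ 1 → e (1 - z⁻¹) = e z)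
    (five : ∀ z w, z ≠ 0 → z ≠ 1 → w ≠ 0 → w ≠ 1 → z ≠ w →
      e z - e w + e (w / z) + e (z * (w - 1) / (w * (z - 1))) - e ((w - 1) / (z - 1)) = 0)
    (z : L) (hz0 : z ≠ 0) (hz1 : z ≠ 1) : e z = 0 := by
  have hz2 : z - 1 ≠ 0 := sub_ne_zero.2 hz1
  -- the sum of all values
  have hS : ∑ w : L, e w = 0 := by
    have h2 : ∑ w : L, e w = ∑ w : L, e w⁻¹ :=
      (Equiv.sum_comp (Equiv.inv L) e).symm
    have h3 : ∑ w : L, e w⁻¹ = - ∑ w : L, e w := by
      rw [← Finset.sum_neg_distrib]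
      exact Finset.sum_congr rfl fun w _ => hinv w
    linarith
  -- e (1 / (1 - z)) = e z
  have hb : ∀ y : L, y ≠ 0 → y ≠ 1 → e (1 - y) = - e y := by
    intro y hy0 hy1
    have h2 := hsub y⁻¹ (inv_ne_zero hy0) (fun h => hy1 (inv_eq_one.mp h))
    rw [inv_inv, hinv] at h2
    exact h2
  have hF : ∀ w : L, e z - e w + e (w / z) + e (z * (w - 1) / (w * (z - 1)))
      - e ((w - 1) / (z - 1)) = 0 := by
    intro w
    by_cases hw0 : w = 0
    · subst hw0
      have h3 : e ((0 - 1) / (z - 1)) = e z := by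
        have h4 : ((0 : L) - 1) / (z - 1) = (1 - z)⁻¹ := by
          have h5 : (1 : L) - z ≠ 0 := sub_ne_zero.2 (Ne.symm hz1)
          field_simp
          ring
        rw [h4, hinv, hb z hz0 hz1, neg_neg]
      rw [h3]
      simp [h0]
    · by_cases hw1 : w = 1
      · subst hw1
        have h3 : e (1 / z) = - e z := by rw [one_div, hinv]
        simp only [sub_self, mul_zero, zero_div]
        rw [h3, h0, h1]
        ring
      · by_cases hzw : z = w
        · subst hzw
          have h3 : z / z = 1 := div_self hz0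
          have h4 : z * (z - 1) / (z * (z - 1)) = 1 := div_self (mul_ne_zero hz0 hz2)
          have h5 : (z - 1) / (z - 1) = 1 := div_self hz2
          rw [h3, h4, h5, h1]
          ring
        · exact five z w hz0 hz1 hw0 hw1 hzw
  have hsum : ∑ w : L, (e z - e w + e (w / z) + e (z * (w - 1) / (w * (z - 1)))
      - e ((w - 1) / (z - 1))) = 0 := Finset.sum_eq_zero fun w _ => hF w
  rw [Finset.sum_sub_distrib, Finset.sum_add_distrib, Finset.sum_add_distrib,
    Finset.sum_sub_distrib, Finset.sum_const, Finset.card_univ, hS] at hsum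
  have hA : ∑ w : L, e (w / z) = 0 := by
    rw [← hS]
    exact Equiv.sum_comp (Equiv.divRight₀ z hz0) e
  have hB : ∑ w : L, e ((w - 1) / (z - 1)) = 0 := by
    rw [← hS]
    exact Equiv.sum_comp ((Equiv.subRight (1 : L)).trans (Equiv.divRight₀ (z - 1) hz2)) e
  have hC : ∑ w : L, e (z * (w - 1) / (w * (z - 1))) = e z := by
    have h2 : ∀ w : L, e (z * (w - 1) / (w * (z - 1))) =
        e (z / (z - 1) * (1 - w⁻¹)) - (if w = 0 then e (z / (z - 1)) else 0) := by
      intro w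
      by_cases hw0 : w = 0
      · subst hw0
        simp [h0]
      · rw [if_neg hw0, sub_zero]
        congr 1
        field_simp
    rw [Finset.sum_congr rfl fun w _ => h2 w, Finset.sum_sub_distrib, Finset.sum_ite_eq' univ]
    have h3 : ∑ w : L, e (z / (z - 1) * (1 - w⁻¹)) = 0 := by
      rw [← hS]
      exact Equiv.sum_comp (((Equiv.inv L).trans (Equiv.subLeft (1 : L))).trans
        (Equiv.mulLeft₀ (z / (z - 1)) (div_ne_zero hz0 hz2))) e
    have h4 : e (z / (z - 1)) = - e z := by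
      have h5 : z / (z - 1) = (1 - z⁻¹)⁻¹ := by
        have h6 : (1 : L) - z⁻¹ ≠ 0 := by
          intro h7
          exact hz1 (inv_eq_one.mp (sub_eq_zero.mp h7).symm)
        field_simp
      rw [h5, hinv, hsub z hz0 hz1]
    rw [h3, h4]
    simp
  rw [hA, hB, hC, nsmul_eq_mul] at hsum
  have h5 : ((Fintype.card L : ℚ) + 1) * e z = 0 := by linarith
  have h6 : (0 : ℚ) < (Fintype.card L : ℚ) + 1 := by positivity
  exact (mul_eq_zero.mp h5).resolve_left h6.ne'

/-- unions of finite fields: a function satisfying the five term relation is zero -/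
theorem b2zero {K : Type*} [Field K] (hK : LocFin K) (e : K → ℚ)
    (hinv : ∀ z, z ≠ 0 → z ≠ 1 → e z⁻¹ = - e z)
    (hsub : ∀ z, z ≠ 0 → z ≠ 1 → e (1 - z⁻¹) = e z)
    (five : ∀ z w, z ≠ 0 → z ≠ 1 → w ≠ 0 → w ≠ 1 → z ≠ w →
      e z - e w + e (w / z) + e (z * (w - 1) / (w * (z - 1))) - e ((w - 1) / (z - 1)) = 0)
    (z : K) (hz0 : z ≠ 0) (hz1 : z ≠ 1) : e z = 0 := by
  classical
  obtain ⟨L, hL, hzL, -⟩ := hK z z
  have : Fintype L := Fintype.ofFinite L
  let e' : L → ℚ := fun y => if y = 0 ∨ y = 1 then 0 else e (y : K)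
  have hne : ∀ y : L, y ≠ 0 → y ≠ 1 → e' y = e (y : K) := by
    intro y hy0 hy1
    simp [e', hy0, hy1]
  have hc0 : ∀ y : L, y ≠ 0 → (y : K) ≠ 0 := fun y hy h => hy (Subtype.ext h)
  have hc1 : ∀ y : L, y ≠ 1 → (y : K) ≠ 1 := fun y hy h => hy (Subtype.ext h)
  have key := b2zero_fin e' (by simp [e']) (by simp [e']) (by
    intro y
    by_cases hy0 : y = 0
    · subst hy0; simp [e']
    · by_cases hy1 : y = 1
      · subst hy1; simp [e']
      · rw [hne y hy0 hy1, hne y⁻¹ (inv_ne_zero hy0) (fun h => hy1 (inv_eq_one.mp h))]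
        have := hinv (y : K) (hc0 y hy0) (hc1 y hy1)
        simpa using this) (by
    intro y hy0 hy1
    have h2 : (1 : L) - y⁻¹ ≠ 0 := by
      intro h7
      exact hy1 (inv_eq_one.mp (sub_eq_zero.mp h7).symm)
    have h3 : (1 : L) - y⁻¹ ≠ 1 := by
      intro h7
      exact hy0 (by simpa using h7)
    rw [hne y hy0 hy1, hne _ h2 h3]
    have := hsub (y : K) (hc0 y hy0) (hc1 y hy1)
    simpa using this) (by
    intro y w hy0 hy1 hw0 hw1 hyw
    have hy2 : y - 1 ≠ 0 := sub_ne_zero.2 hy1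
    have hw2 : w - 1 ≠ 0 := sub_ne_zero.2 hw1
    have h3 : w / y ≠ 0 := div_ne_zero hw0 hy0
    have h4 : w / y ≠ 1 := fun h => hyw ((div_eq_one_iff_eq hy0).mp h).symm
    have h5 : y * (w - 1) / (w * (y - 1)) ≠ 0 :=
      div_ne_zero (mul_ne_zero hy0 hw2) (mul_ne_zero hw0 hy2)
    have h6 : y * (w - 1) / (w * (y - 1)) ≠ 1 := by
      intro h
      rw [div_eq_one_iff_eq (mul_ne_zero hw0 hy2)] at h
      apply hyw
      linear_combination (-1 : L) * h
    have h7 : (w - 1) / (y - 1) ≠ 0 := div_ne_zero hw2 hy2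
    have h8 : (w - 1) / (y - 1) ≠ 1 := by
      intro h
      rw [div_eq_one_iff_eq hy2] at h
      apply hyw
      linear_combination (-1 : L) * h
    rw [hne y hy0 hy1, hne w hw0 hw1, hne _ h3 h4, hne _ h5 h6, hne _ h7 h8]
    have := five (y : K) (w : K) (hc0 y hy0) (hc1 y hy1) (hc0 w hw0) (hc1 w hw1)
      (fun h => hyw (Subtype.ext h))
    simpa using this) ⟨z, hzL⟩ (fun h => hz0 (congrArg Subtype.val h))
      (fun h => hz1 (congrArg Subtype.val h))
  rw [hne _ (fun h => hz0 (congrArg Subtype.val h)) (fun h => hz1 (congrArg Subtype.val h))] at key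
  exact key

end Pool.Agent.Q22.GW
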