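import Pool.Agent.TH358.GP.Cls

/-!
# Exactness of the polylogarithmic complexes at the last places
-/

namespace Pool.Agent.Q22.GW

open scoped TensorProduct
open H39Gon H39Gon.E2 Pool.Agent.TH358.GP

variable {F : Type} [Field F] (hF : EvS F)

include hF in
theorem exact_d (m j : ℕ) (hsd : SpanDual F (m + 2)) (D : Differentials F) :
    Function.Exact (D.d (m + 1) j) (D.d m (j + 1)) := by
  apply exact_of_dual
  · have h0 : (D.d m (j + 1)) ∘ₗ (D.d (m + 1) j) = 0 := by
      apply text
      intro x y
      rw [LinearMap.comp_apply, LinearMap.zero_apply]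
      rcases x with _ | x
      · rw [D.d_inf, map_zero]
      · by_cases hx : x = 0
        · subst hx
          rw [D.d_zero, map_zero]
        · rw [D.d_some _ _ _ _ hx, D.d_some _ _ _ _ hx]
          unfold tq
          have h1 : exteriorPower.ιMulti ℤ (j + 1 + 1)
              (Fin.cons (cl x) (Fin.cons (cl x) y : Fin (j + 1) → UV F)) = 0 :=
            AlternatingMap.map_eq_zero_of_eq _ _ (i := 0) (j := 1) (by simp) (by simp)
          rw [h1, TensorProduct.tmul_zero, TensorProduct.tmul_zero]
    intro u
    exact LinearMap.congr_fun h0 u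
  · intro φ hφ
    have hφ' : ∀ (x : F) (y : Fin j → UV F), x ≠ 0 →
        φ (tq F (m + 3) (j + 1) (some x) (Fin.cons (cl x) y : Fin (j + 1) → UV F)) = 0 := by
      intro x y hx
      have h1 := hφ (tq F (m + 1 + 3) j (some x) y)
      rw [D.d_some _ _ _ _ hx] at h1
      exact h1
    obtain ⟨Ψ, hΨ, hev⟩ := hF (m + 1) _ (toTheta φ) (fun r hr => toTheta_R φ r hr)
    have hnone : ∀ y, φ (tq F (m + 3) (j + 1) none y) = 0 := by
      intro y
      rw [← toTheta_apply, hev, ev_none]
      rfl
    have hsome : ∀ x y, φ (tq F (m + 3) (j + 1) (some x) y) =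
        Ψ (cl (1 - x)) (cl x) (fun _ => cl x) y := by
      intro x y
      rw [← toTheta_apply, hev, ev_some]
    obtain ⟨Q', hQ1, hQ2⟩ := koszul_step m (j + 1) (qOf Ψ) (by
        intro s
        rw [qOf_apply, hΨ]
        rfl) (by
        intro i hi s v y
        obtain rfl : j = i := by omega
        have h1 := hsd (MultilinearMap.uncurryRight
          (M := fun _ : Fin (m + 2 + 1) => UV F)
          ((flipTail y).compMultilinearMap (qOf Ψ))) (by
            intro f hf0 hf1
            change qOf Ψ (fun _ => cl f) (cl (1 - f)) (Fin.cons (cl f) y) = 0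
            rw [qOf_apply, ← hsome]
            exact hφ' f y hf0) s v
        exact h1)
    refine ⟨ofTheta (theta' Q') (theta'_R Q' hQ1), fun v => ?_⟩
    have h2 : φ = (ofTheta (theta' Q') (theta'_R Q' hQ1)) ∘ₗ (D.d m (j + 1)) := by
      apply text
      intro x y
      rw [LinearMap.comp_apply]
      rcases x with _ | x
      · rw [hnone, D.d_inf, map_zero]
      · by_cases hx : x = 0
        · subst hx
          rw [D.d_zero, map_zero, hsome, H39Gon.E2.cl_zero, map_zero]
          rfl
        · rw [D.d_some m (j + 1) x y hx, ofTheta_apply, theta'_some, hQ2, qOf_apply, hsome]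
    rw [h2]
    rfl

include hF in
theorem exact_e (j : ℕ) (hsd : SpanDual F 1) (D : Differentials F) :
    Function.Exact (D.d 0 j) (D.e (j + 1)) := by
  apply exact_of_dual
  · have h0 : (D.e (j + 1)) ∘ₗ (D.d 0 j) = 0 := by
      apply text
      intro x y
      rw [LinearMap.comp_apply, LinearMap.zero_apply]
      rcases x with _ | x
      · rw [D.d_inf, map_zero]
      · by_cases hx : x = 0
        · subst hx
          rw [D.d_zero, map_zero]
        · rw [D.d_some _ _ _ _ hx]
          by_cases hx1 : x = 1
          · subst hx1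
            exact D.e_one _ _
          · rw [D.e_some _ _ _ hx hx1]
            unfold lq
            have h1 : exteriorPower.ιMulti ℤ (j + 1 + 2)
                (Fin.cons (cl (1 - x)) (Fin.cons (cl x)
                  (Fin.cons (cl x) y : Fin (j + 1) → UV F) :
                    Fin (j + 1 + 1) → UV F)) = 0 :=
              AlternatingMap.map_eq_zero_of_eq _ _ (i := ⟨1, by omega⟩) (j := ⟨2, by omega⟩)
                (by rfl) (by simp [Fin.ext_iff])
            rw [h1, TensorProduct.tmul_zero]
    intro u
    exact LinearMap.congr_fun h0 u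
  · intro φ hφ
    have hφ' : ∀ (x : F) (y : Fin j → UV F), x ≠ 0 →
        φ (tq F 2 (j + 1) (some x) (Fin.cons (cl x) y : Fin (j + 1) → UV F)) = 0 := by
      intro x y hx
      have h1 := hφ (tq F (0 + 3) j (some x) y)
      rw [D.d_some _ _ _ _ hx] at h1
      exact h1
    obtain ⟨Ψ, hΨ, hev⟩ := hF 0 _ (toTheta φ) (fun r hr => toTheta_R φ r hr)
    have hnone : ∀ y, φ (tq F 2 (j + 1) none y) = 0 := by
      intro y
      rw [← toTheta_apply, hev, ev_none]
      rfl
    have hsome : ∀ x y, φ (tq F 2 (j + 1) (some x) y) =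
        Ψ (cl (1 - x)) (cl x) (fun _ => cl x) y := by
      intro x y
      rw [← toTheta_apply, hev, ev_some]
    let Q : UV F →ₗ[ℤ] (UV F →ₗ[ℤ] (UV F [⋀^Fin (j + 1)]→ₗ[ℤ] ℚ)) :=
      LinearMap.mk₂ ℤ (fun s v => Ψ v s Fin.elim0)
        (fun a b c => by simp) (fun a b c => by simp) (fun a b c => by simp)
        (fun a b c => by simp)
    have hQ : ∀ s v, Q s v = Ψ v s (fun _ => s) := by
      intro s v
      change Ψ v s Fin.elim0 = _
      congr 1
      exact Subsingleton.elim _ _
    obtain ⟨Θ, hΘ⟩ := koszul_last (j + 1) Q (by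
        intro s
        rw [hQ, hΨ]
        rfl) (by
        intro i hi s v y
        obtain rfl : j = i := by omega
        have h1 := hsd (MultilinearMap.uncurryRight
          (M := fun _ : Fin (1 + 1) => UV F)
          ((flipTail y).compMultilinearMap (qOf Ψ))) (by
            intro f hf0 hf1
            change qOf Ψ (fun _ => cl f) (cl (1 - f)) (Fin.cons (cl f) y) = 0
            rw [qOf_apply, ← hsome]
            exact hφ' f y hf0) s v
        have h2 : qOf Ψ (fun _ => s) v (Fin.cons s y) = 0 := h1
        rw [qOf_apply] at h2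
        rw [hQ]
        exact h2)
    refine ⟨ofAlt Θ, fun v => ?_⟩
    have h2 : φ = (ofAlt Θ) ∘ₗ (D.e (j + 1)) := by
      apply text
      intro x y
      rw [LinearMap.comp_apply]
      rcases x with _ | x
      · rw [hnone, D.e_inf, map_zero]
      · by_cases hx : x = 0
        · subst hx
          rw [D.e_zero, map_zero, hsome, H39Gon.E2.cl_zero, map_zero]
          rfl
        · by_cases hx1 : x = 1
          · subst hx1
            rw [D.e_one, map_zero, hsome, sub_self, H39Gon.E2.cl_zero, map_zero]
            rfl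
          · rw [D.e_some (j + 1) x y hx hx1, ofAlt_apply, hΘ, hQ, hsome]
    rw [h2]
    rfl

theorem surj_e (j : ℕ) (hsd : SpanDual F 0) (D : Differentials F) :
    Function.Surjective (D.e j) := by
  apply surjective_of_dual
  intro χ hχ
  apply lext
  intro z
  rw [LinearMap.zero_apply, ← toAlt_apply]
  have h1 : ∀ (y : Fin j → UV F) (s v : UV F),
      toAlt χ (Fin.cons v (Fin.cons s y)) = 0 := by
    intro y s v
    have h2 := hsd (MultilinearMap.ofSubsingleton ℤ (UV F)
      (UV F →ₗ[ℤ] ℚ) (0 : Fin 1)
      (LinearMap.flip ((evalTail y) ∘ₗ (toAlt χ).curryLeft))) (by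
        intro f hf0 hf1
        change toAlt χ (Fin.cons (cl (1 - f)) (Fin.cons (cl f) y)) = 0
        rw [toAlt_apply, ← D.e_some j f y hf0 hf1]
        exact hχ _) s v
    exact h2
  have h3 := h1 (Fin.tail (Fin.tail z)) (Fin.tail z 0) (z 0)
  rwa [Fin.cons_self_tail, Fin.cons_self_tail] at h3

/-- the statement for `GonP.Differentials` -/
theorem complexes (hF : EvS F) (h0 : SpanDual F 0) (h1 : SpanDual F 1) :
    ∃ D : GonP.Differentials F, (∀ D' : GonP.Differentials F, D' = D) ∧
      ((∀ m, Function.Injective (D.d m 0)) ∧ Function.Injective (D.e 0)) ∧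
      (∀ j, Function.Exact (D.d 0 j) (D.e (j + 1))) ∧
      (∀ j, Function.Surjective (D.e j)) := by
  obtain ⟨D⟩ := exists_D hF
  refine ⟨GonP.ofD D, fun D' => GonP.unique (GonP.ofD D) D', ⟨fun m => ?_, ?_⟩, fun j => ?_,
    fun j => ?_⟩
  · exact (GonP.eT F m 1).symm.injective.comp
      ((inj_d hF D m).comp (GonP.eT F (m + 1) 0).injective)
  · exact (GonP.eLQ F 2).symm.injective.comp
      ((inj_e hF D).comp (GonP.eT F 0 0).injective)
  · exact GonP.exact_conj (GonP.eT F 1 j) (GonP.eT F 0 (j + 1)) (GonP.eLQ F (j + 3)) _ _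
      (exact_e hF j h1 D)
  · exact (GonP.eLQ F (j + 2)).symm.surjective.comp
      ((surj_e j h0 D).comp (GonP.eT F 0 j).surjective)

end Pool.Agent.Q22.GW
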