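import Pool.Agent.Q22.GW.Int
import Pool.Agent.Q22.GW.Cx

/-!
# Degree `n - 1` of the complexes of a field with `SpanDual F 1`, modulo the Bloch group
-/

namespace Pool.Agent.Q22.GW

open scoped TensorProduct
open H39Gon H39Gon.E2 H39Gon.C4 H39Gon.TC2 Pool.Agent.TH358.GP

variable {F : Type} [Field F]

/-- functionals which kill `ker δ_2` -/
theorem ev_of_ker (W : Type) [AddCommGroup W] [Module ℚ W] (θ : ZP F →ₗ[ℤ] W)
    (hker : ∀ α, delta2 F α = 0 → θ α = 0) :
    ∃ Ψ : UV F →ₗ[ℤ] UV F →ₗ[ℤ] MultilinearMap ℤ (fun _ : Fin 0 => UV F) W,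
      (∀ a, Ψ a a = 0) ∧ θ = ev Ψ := by
  obtain ⟨L, hL⟩ := exists_ext _ θ hker
  set f : MultilinearMap ℤ (fun _ : Fin 2 => UV F) W :=
    (L.compAlternatingMap (exteriorPower.ιMulti ℤ 2)).toMultilinearMap with hf
  refine ⟨(multilinearCurryLeftEquiv ℤ (fun _ : Fin 1 => UV F) W).toLinearMap ∘ₗ
    f.curryLeft, ?_, ?_⟩
  · intro a
    ext c
    change (L.compAlternatingMap (exteriorPower.ιMulti ℤ 2)) (Fin.cons a (Fin.cons a c)) = 0
    apply AlternatingMap.map_eq_zero_of_eq _ _ (i := 0) (j := 1)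
    · rfl
    · simp
  · rw [hL]
    apply Finsupp.lhom_ext'
    intro x
    apply LinearMap.ext_ring
    simp only [LinearMap.comp_apply, Finsupp.lsingle_apply, delta2, ev,
      Finsupp.linearCombination_single, one_smul]
    cases x with
    | none => simp
    | some x =>
      change L (exteriorPower.ιMulti ℤ 2 ![cl (1 - x), cl x]) =
        L (exteriorPower.ιMulti ℤ 2 (Fin.cons (cl (1 - x)) (Fin.cons (cl x) (fun _ => cl x))))
      congr 2

/-- the products of elements of the Bloch group and of elements of `Λ^j F^*` -/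
noncomputable def blochProd (F : Type) [Field F] (j : ℕ) : Set (TQ F 2 j) :=
  {v | ∃ α : ZP F, delta2 F α = 0 ∧ ∃ y : Fin j → UV F,
    v = (1 : ℚ) ⊗ₜ[ℤ] ((R 2 F).mkQ α ⊗ₜ[ℤ] exteriorPower.ιMulti ℤ j y)}

/-- the images of the generators of the preceding term -/
noncomputable def prevIm (F : Type) [Field F] (j : ℕ) : Set (TQ F 2 (j + 1)) :=
  {v | ∃ (x : F) (y : Fin j → UV F), x ≠ 0 ∧ v = tq F 2 (j + 1) (some x) (Fin.cons (cl x) y)}

theorem toTheta_apply' {m j : ℕ} (φ : TQ F m j →ₗ[ℚ] ℚ) (α : ZP F) (y : Fin j → UV F) :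
    toTheta φ α y = φ ((1 : ℚ) ⊗ₜ[ℤ] ((R m F).mkQ α ⊗ₜ[ℤ] exteriorPower.ιMulti ℤ j y)) := rfl

theorem ker_e (j : ℕ) (hsd : SpanDual F 1) (ξ : TQ F 2 (j + 1)) (hξ : e1e F (j + 1) ξ = 0) :
    ξ ∈ Submodule.span ℚ (prevIm F j ∪ blochProd F (j + 1)) := by
  by_contra hcon
  obtain ⟨φ, hφ, hne⟩ := exists_dual_ne hcon
  apply hne
  have hφ' : ∀ (x : F) (y : Fin j → UV F), x ≠ 0 →
      φ (tq F 2 (j + 1) (some x) (Fin.cons (cl x) y : Fin (j + 1) → UV F)) = 0 := by
    intro x y hx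
    exact hφ _ (Submodule.subset_span (Or.inl ⟨x, y, hx, rfl⟩))
  obtain ⟨Ψ, hΨ, hev⟩ := ev_of_ker _ (toTheta φ) (by
    intro α hα
    ext y
    rw [toTheta_apply']
    exact hφ _ (Submodule.subset_span (Or.inr ⟨α, hα, y, rfl⟩)))
  have hnone : ∀ y, φ (tq F 2 (j + 1) none y) = 0 := by
    intro y
    rw [← toTheta_apply, hev, ev_none]
    rfl
  have hsome : ∀ x y, φ (tq F 2 (j + 1) (some x) y) =
      Ψ (cl (1 - x)) (cl x) (fun _ => cl x) y := by
    intro x y
    rw [← toTheta_apply, hev, ev_some]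
  let Q : UV F →ₗ[ℤ] (UV F →ₗ[ℤ] (UV F [⋀^Fin (j + 1)]→ₗ[ℤ] ℚ)) :=
    LinearMap.mk₂ ℤ (fun s v => Ψ v s Fin.elim0)
      (fun a b c => by simp) (fun a b c => by simp) (fun a b c => by simp)
      (fun a b c => by simp)
  have hQ : ∀ s v, Q s v = Ψ v s (fun _ => s) := by
    intro s v
    change Ψ v s Fin.elim0 = _
    congr 1
    exact Subsingleton.elim _ _
  obtain ⟨Θ, hΘ⟩ := koszul_last (j + 1) Q (by
      intro s
      rw [hQ, hΨ]
      rfl) (by
      intro i hi s v y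
      obtain rfl : j = i := by omega
      have h1 := hsd (MultilinearMap.uncurryRight
        (M := fun _ : Fin (1 + 1) => UV F)
        ((flipTail y).compMultilinearMap (qOf Ψ))) (by
          intro f hf0 hf1
          change qOf Ψ (fun _ => cl f) (cl (1 - f)) (Fin.cons (cl f) y) = 0
          rw [qOf_apply, ← hsome]
          exact hφ' f y hf0) s v
      have h2 : qOf Ψ (fun _ => s) v (Fin.cons s y) = 0 := h1
      rw [qOf_apply] at h2
      rw [hQ]
      exact h2)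
  have h2 : φ = (ofAlt Θ) ∘ₗ (e1e F (j + 1)) := by
    apply text
    intro x y
    rw [LinearMap.comp_apply]
    rcases x with _ | x
    · rw [hnone, e1e_apply, e1ev_none]
      simp
    · rw [e1e_apply, e1ev_some, e1Psi_apply, e1Psi2_apply, ofAlt_apply, hΘ, hQ, hsome]
  rw [h2, LinearMap.comp_apply, hξ, map_zero]

end Pool.Agent.Q22.GW
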