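import Pool.Agent.Q22.GW.Bl

/-!
# Degree `n - 1` of the complexes modulo the Bloch group: the statement for `GonP`
-/

namespace Pool.Agent.Q22.GW

open GonP

variable {F : Type} [Field F]

/-- The values `{x}_2 ⊗ x ∧ y_1 ∧ ... ∧ y_j` (`x ≠ 0`) of the differential
`(B_3(F) ⊗ Λ^j F^*)_ℚ → (B_2(F) ⊗ Λ^{j+1} F^*)_ℚ` on the generators. -/
def Boundaries (F : Type) [Field F] (j : ℕ) : Set (TQ F 2 (j + 1)) :=
  {v | ∃ (x : F) (y : Fin j → UV F), x ≠ 0 ∧ v = tq 2 (j + 1) (some x) (Fin.cons (cl x) y)}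

/-- The products `β ⊗ y_1 ∧ ... ∧ y_j` of the elements `β` of `ker (B_2(F) → Λ² F^*)` and of
elements of `Λ^j F^*`, in `(B_2(F) ⊗ Λ^j F^*)_ℚ`. -/
def BlochProducts (F : Type) [Field F] (j : ℕ) : Set (TQ F 2 j) :=
  {v | ∃ α ∈ A2 F, ∃ y : Fin j → UV F, v = toRat (tm (toQuo (R 2 F) α) (wedge y))}

/-- the transported differential -/
noncomputable def eG (F : Type) [Field F] (j : ℕ) : TQ F 2 j → LQ F (j + 2) :=
  fun x => (eLQ F (j + 2)).symm (H39Gon.e1e F j (eT F 0 j x))

theorem eG_spec (j : ℕ) : IsE j (eG F j) := by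
  refine ⟨⟨fun x y => ?_, fun c x => ?_⟩, fun y => ?_, fun y => ?_, fun y => ?_,
      fun x y hx hx1 => ?_⟩
  · unfold eG
    rw [map_add, map_add, map_add]
  · unfold eG
    rw [map_smul, map_smul, map_smul]
  · unfold eG
    rw [show eT F 0 j (tq 2 j none y) = H39Gon.tq F 2 j none y from eT_tq 0 j none y,
      H39Gon.e1e_apply, H39Gon.e1ev_none]
    simp
  · unfold eG
    rw [show eT F 0 j (tq 2 j (some 0) y) = H39Gon.tq F 2 j (some 0) y from
      eT_tq 0 j (some 0) y, H39Gon.e1e_apply, H39Gon.e1ev_some, H39Gon.e1Psi_apply,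
      H39Gon.e1Psi2_apply, H39Gon.e1cl_zero]
    unfold H39Gon.lq
    rw [(exteriorPower.ιMulti ℤ (j + 2)).map_coord_zero (i := 1) (by simp),
      TensorProduct.tmul_zero, map_zero]
  · unfold eG
    rw [show eT F 0 j (tq 2 j (some 1) y) = H39Gon.tq F 2 j (some 1) y from
      eT_tq 0 j (some 1) y, H39Gon.e1e_apply, H39Gon.e1ev_some, H39Gon.e1Psi_apply,
      H39Gon.e1Psi2_apply, H39Gon.e1cl_one]
    unfold H39Gon.lq
    rw [(exteriorPower.ιMulti ℤ (j + 2)).map_coord_zero (i := 1) (by simp),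
      TensorProduct.tmul_zero, map_zero]
  · unfold eG
    rw [show eT F 0 j (tq 2 j (some x) y) = H39Gon.tq F 2 j (some x) y from
      eT_tq 0 j (some x) y, H39Gon.e1e_apply, H39Gon.e1ev_some, H39Gon.e1Psi_apply,
      H39Gon.e1Psi2_apply]
    exact eLQ_symm_lq (j + 2) _

theorem isE_unique {j : ℕ} {e e' : TQ F 2 j → LQ F (j + 2)} (b : IsE j e) (a : IsE j e') :
    e = e' := by
  apply text_P 0 j _ _ b.1 a.1
  intro x y
  rcases x with _ | x
  · exact (b.2.1 y).trans (a.2.1 y).symm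
  · by_cases hx : x = 0
    · subst hx; exact (b.2.2.1 y).trans (a.2.2.1 y).symm
    · by_cases hx1 : x = 1
      · subst hx1; exact (b.2.2.2.1 y).trans (a.2.2.2.1 y).symm
      · exact (b.2.2.2.2 x y hx hx1).trans (a.2.2.2.2 x y hx hx1).symm

theorem eT_bloch (j : ℕ) (α : ZP F) (y : Fin j → UV F) :
    eT F 0 j (toRat (tm (toQuo (R 2 F) α) (wedge y))) =
      (1 : ℚ) ⊗ₜ[ℤ] ((H39Gon.R 2 F).mkQ α ⊗ₜ[ℤ] exteriorPower.ιMulti ℤ j y) := by
  unfold eT
  rw [← eL_wedge]
  rfl

theorem mem_A2 (α : ZP F) : α ∈ A2 F ↔ H39Gon.delta2 F α = 0 := by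
  rw [A2_eq, SetLike.mem_coe, LinearMap.mem_ker]

/-- the kernel of the last differential -/
theorem ker_eG (j : ℕ) (hsd : H39Gon.SpanDual F 1) (e : TQ F 2 (j + 1) → LQ F (j + 3))
    (he : IsE (j + 1) e) (ξ : TQ F 2 (j + 1)) :
    e ξ = 0 ↔ ξ ∈ Submodule.span ℚ (Boundaries F j ∪ BlochProducts F (j + 1)) := by
  have h0 : e = eG F (j + 1) := isE_unique he (eG_spec (j + 1))
  rw [h0]
  constructor
  · intro h
    have h1 : H39Gon.e1e F (j + 1) (eT F 0 (j + 1) ξ) = 0 := by
      have h2 : (eLQ F (j + 3)).symm (H39Gon.e1e F (j + 1) (eT F 0 (j + 1) ξ)) = 0 := h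
      exact (LinearEquiv.map_eq_zero_iff _).mp h2
    have h2 := ker_e j hsd _ h1
    have h3 : ξ = (eT F 0 (j + 1)).symm (eT F 0 (j + 1) ξ) := by
      rw [LinearEquiv.symm_apply_apply]
    rw [h3]
    have h4 : ∀ η ∈ Submodule.span ℚ (prevIm F j ∪ blochProd F (j + 1)),
        (eT F 0 (j + 1)).symm η ∈ Submodule.span ℚ (Boundaries F j ∪ BlochProducts F (j + 1)) := by
      intro η hη
      induction hη using Submodule.span_induction with
      | mem v hv =>
        apply Submodule.subset_span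
        rcases hv with ⟨x, y, hx, rfl⟩ | ⟨α, hα, y, rfl⟩
        · left
          exact ⟨x, y, hx, eT_symm_tq 0 (j + 1) _ _⟩
        · right
          refine ⟨α, (mem_A2 α).2 hα, y, ?_⟩
          rw [← eT_bloch]
          exact LinearEquiv.symm_apply_apply (eT F 0 (j + 1)) _
      | zero => rw [map_zero]; exact zero_mem _
      | add a b _ _ ha hb => rw [map_add]; exact add_mem ha hb
      | smul c a _ ha => rw [map_smul]; exact Submodule.smul_mem _ _ ha
    exact h4 _ h2
  · intro h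
    have hE := eG_spec (F := F) (j + 1)
    induction h using Submodule.span_induction with
    | mem v hv =>
      rcases hv with ⟨x, y, hx, rfl⟩ | ⟨α, hα, y, rfl⟩
      · by_cases hx1 : x = 1
        · subst hx1
          exact hE.2.2.2.1 _
        · rw [hE.2.2.2.2 x _ hx hx1]
          have h5 : eLQ F (j + 1 + 2) (lq (j + 1 + 2) (Fin.cons (cl (1 - x)) (Fin.cons (cl x)
              (Fin.cons (cl x) y : Fin (j + 1) → UV F)))) = 0 := by
            rw [eLQ_lq]
            unfold H39Gon.lq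
            have h6 : exteriorPower.ιMulti ℤ (j + 1 + 2)
                (Fin.cons (cl (1 - x)) (Fin.cons (cl x)
                  (Fin.cons (cl x) y : Fin (j + 1) → UV F) :
                    Fin (j + 1 + 1) → UV F)) = 0 :=
              AlternatingMap.map_eq_zero_of_eq _ _ (i := ⟨1, by omega⟩) (j := ⟨2, by omega⟩)
                (by rfl) (by simp [Fin.ext_iff])
            rw [h6, TensorProduct.tmul_zero]
          exact (LinearEquiv.map_eq_zero_iff _).mp h5
      · have h5 : H39Gon.e1e F (j + 1) (eT F 0 (j + 1)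
            (toRat (tm (toQuo (R 2 F) α) (wedge y)))) = 0 := by
          rw [eT_bloch]
          have h6 : H39Gon.e1e F (j + 1) ((1 : ℚ) ⊗ₜ[ℤ] ((H39Gon.R 2 F).mkQ α ⊗ₜ[ℤ]
              exteriorPower.ιMulti ℤ (j + 1) y)) =
              H39Gon.ev (H39Gon.e1Psi F (j + 1)) α (exteriorPower.ιMulti ℤ (j + 1) y) := by
            unfold H39Gon.e1e H39Gon.e1lift
            rw [LinearMap.liftBaseChange_tmul, one_smul]
            rfl
          rw [h6, H39Gon.TC2.ev_ker_delta2 (H39Gon.e1Psi F (j + 1)) (H39Gon.e1Psi_self F (j + 1)) α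
            (LinearMap.mem_ker.2 ((mem_A2 α).1 hα))]
          rfl
        unfold eG
        rw [h5, map_zero]
    | zero => exact (hE.1.mk' _).map_zero
    | add a b _ _ ha hb => rw [hE.1.map_add, ha, hb, add_zero]
    | smul c a _ ha => rw [hE.1.map_smul, ha, smul_zero]

/-- the last differential is surjective -/
theorem surj_eG (j : ℕ) (hsd : H39Gon.SpanDual F 0) (e : TQ F 2 j → LQ F (j + 2))
    (he : IsE j e) : Function.Surjective e := by
  have h0 : e = eG F j := isE_unique he (eG_spec j)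
  rw [h0]
  have h1 : Function.Surjective (H39Gon.e1e F j) := by
    apply H39Gon.E2.surjective_of_dual
    intro χ hχ
    apply H39Gon.E2.lext
    intro z
    rw [LinearMap.zero_apply, ← H39Gon.E2.toAlt_apply]
    have h1 : ∀ (y : Fin j → UV F) (s v : UV F),
        H39Gon.E2.toAlt χ (Fin.cons v (Fin.cons s y)) = 0 := by
      intro y s v
      have h2 := hsd (MultilinearMap.ofSubsingleton ℤ (UV F)
        (UV F →ₗ[ℤ] ℚ) (0 : Fin 1)
        (LinearMap.flip ((H39Gon.E2.evalTail y) ∘ₗ (H39Gon.E2.toAlt χ).curryLeft))) (by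
          intro f hf0 hf1
          change H39Gon.E2.toAlt χ (Fin.cons (H39Gon.cl (1 - f)) (Fin.cons (H39Gon.cl f) y)) = 0
          have h3 := hχ (H39Gon.tq F 2 j (some f) y)
          rw [H39Gon.e1e_apply, H39Gon.e1ev_some, H39Gon.e1Psi_apply,
            H39Gon.e1Psi2_apply] at h3
          rw [H39Gon.E2.toAlt_apply]
          exact h3) s v
      exact h2
    have h3 := h1 (Fin.tail (Fin.tail z)) (Fin.tail z 0) (z 0)
    rwa [Fin.cons_self_tail, Fin.cons_self_tail] at h3
  exact (eLQ F (j + 2)).symm.surjective.comp (h1.comp (eT F 0 j).surjective)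

end Pool.Agent.Q22.GW
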