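import Pool.Agent.Q22.GW.Fin
import Pool.Agent.TH358.BG.Main

/-!
# Curves with function field `k(x)`
-/

namespace Pool.Agent.Q22.GW

open GonP Pool.Agent.TH358.BG Pool.Agent.TH358.GP

theorem curve (p : ℕ) [Fact p.Prime] (k : Type) [Field k] [Algebra (ZMod p) k]
    [Algebra.IsAlgebraic (ZMod p) k] (X : Type) (κ : X → Type) [∀ x, Field (κ x)]
    [∀ x, Algebra (ZMod p) (κ x)] [∀ x, Algebra.IsAlgebraic (ZMod p) (κ x)]
    (DF : Differentials (RatFunc k)) (Dκ : ∀ x, Differentials (κ x)) (res : Res (RatFunc k) κ) :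
    (∀ m z, tot DF Dκ res (m + 1) 0 z = 0 → z = 0) ∧
    (∀ j z, tot DF Dκ res 1 (j + 1) z = 0 ↔ ∃ w, tot DF Dκ res 2 j w = z) ∧
    (∀ j z, tot DF Dκ res 0 (j + 1) z = 0 ↔ ∃ w, tot DF Dκ res 1 j w = z) ∧
    (∀ j z, ∃ w, tot DF Dκ res 0 (j + 1) w = z) := by
  have hG := generic p (RatFunc k) κ DF Dκ res
  obtain ⟨D, hu, ⟨h1, h2⟩, h3, h4⟩ := ratFunc_complexes p k
  obtain rfl := hu DF
  have hfst : ∀ m j (z : XT (RatFunc k) κ (m + 1) j), (tot DF Dκ res m j z).1 = gd DF m j z.1 :=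
    hG.1
  have hext : ∀ m j (z w : XT (RatFunc k) κ m j), z.1 = w.1 → z = w :=
    fun m j z w h => (hG.2 m j).1 h
  have ex : ∀ m j, Function.Exact (gd DF (m + 1) j) (gd DF m (j + 1)) →
      ∀ z, tot DF Dκ res m (j + 1) z = 0 ↔ ∃ w, tot DF Dκ res (m + 1) j w = z := by
    intro m j hE z
    constructor
    · intro h
      have h1 : gd DF m (j + 1) z.1 = 0 := by
        rw [← hfst, h]
        rfl
      obtain ⟨a, ha⟩ := (hE z.1).1 h1
      refine ⟨(a, 0), hext _ _ _ _ ?_⟩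
      rw [hfst]
      exact ha
    · rintro ⟨w, rfl⟩
      apply hext
      rw [hfst, hfst]
      exact (hE _).2 ⟨w.1, rfl⟩
  refine ⟨?_, fun j => ex 1 j (h3 j), fun j => ex 0 j ?_, fun j z => ⟨0, hext _ _ _ _ rfl⟩⟩
  · intro m z h
    apply hext
    have e1 : gd DF (m + 1) 0 z.1 = 0 := by
      rw [← hfst, h]
      rfl
    have e2 : gd DF (m + 1) 0 z.1 = gd DF (m + 1) 0 0 := by rw [e1, gd_zero]
    match m, z, e2 with
    | 0, z, e2 => exact h2 e2
    | (m + 1), z, e2 => exact h1 m e2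
  · intro y
    constructor
    · intro _
      exact h4 j y
    · intro _
      rfl

end Pool.Agent.Q22.GW
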