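import Pool.Agent.Q22.GW.Lev

/-!
# One prime: the symbols of the elements of the residue field
-/

set_option linter.unusedSectionVars false

namespace Pool.Agent.Q22.GW

variable {R : Type} [CommRing R] [IsDomain R] {W : Type} [AddCommGroup W]

/-- the value of `τ` on the symbol of `A/B` -/
def EE (c : R → W) (τ : W →+ W →+ ℚ) (A B : R) : ℚ :=
  τ (c A) (c B) + τ (c B) (c (A - B)) + τ (c (A - B)) (c A)

/-- `τ` is alternating on the small elements and the symbols of the equations `A - B = P C`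
with `P` deleted are given by `γ` -/
structure Loc (Red : Set R) (P : R) (c : R → W) (τ : W →+ W →+ ℚ) (γ : W →+ ℚ) : Prop where
  alt : ∀ a ∈ SS Red, ∀ b ∈ SS Red, τ (c a) (c b) = - τ (c b) (c a)
  rel : ∀ A ∈ SS Red, ∀ B ∈ SS Red, ∀ C ∈ SS Red, A - B = P * C →
    τ (c A) (c B) + τ (c B) (c C) + τ (c C) (c A) = γ (c A) - γ (c B)

section

variable {Red : Set R} {P : R} {c : R → W} (hc : IsCl c) {τ : W →+ W →+ ℚ} {γ : W →+ ℚ}

include hc in
theorem EE.scale (ne : ∀ a ∈ Red, a ≠ 0)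
    (alt : ∀ a ∈ SS Red, ∀ b ∈ SS Red, τ (c a) (c b) = - τ (c b) (c a)) {A B T : R}
    (hA : A ∈ SS Red) (hB : B ∈ SS Red) (hD : A - B ∈ SS Red) (hT : T ∈ SS Red) :
    EE c τ (A * T) (B * T) = EE c τ A B := by
  unfold EE
  rw [← sub_mul, hc.mul A T (SS.ne ne hA) (SS.ne ne hT), hc.mul B T (SS.ne ne hB) (SS.ne ne hT),
    hc.mul (A - B) T (SS.ne ne hD) (SS.ne ne hT)]
  simp only [map_add, AddMonoidHom.add_apply]
  have h1 := alt A hA T hT
  have h2 := alt B hB T hT
  have h3 := alt (A - B) hD T hT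
  have h4 := alt T hT T hT
  linarith

variable {K : Type} [Field K] {π : R →+* K} (L : Lev Red P π) (Q : Loc Red P c τ γ)
include hc L Q

theorem Loc.wd {A B A' B' C : R} (hA : A ∈ SS Red) (hB : B ∈ SS Red) (hD : A - B ∈ SS Red)
    (hA' : A' ∈ SS Red) (hB' : B' ∈ SS Red) (hD' : A' - B' ∈ SS Red) (hC : C ∈ SS Red)
    (h : A * B' - A' * B = P * C) : EE c τ A B = EE c τ A' B' := by
  have r1 := Q.rel (A * B') (mul_mem hA hB') (A' * B) (mul_mem hA' hB) C hC h
  have r2 := Q.rel (A' * (A - B)) (mul_mem hA' hD) (A * (A' - B')) (mul_mem hA hD') C hC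
    (by linear_combination h)
  have r3 := Q.rel (B' * (A - B)) (mul_mem hB' hD) (B * (A' - B')) (mul_mem hB hD') C hC
    (by linear_combination h)
  have n1 := L.neS hA
  have n2 := L.neS hB
  have n3 := L.neS hD
  have n1' := L.neS hA'
  have n2' := L.neS hB'
  have n3' := L.neS hD'
  unfold EE
  rw [hc.mul A B' n1 n2', hc.mul A' B n1' n2] at r1
  rw [hc.mul A' (A - B) n1' n3, hc.mul A (A' - B') n1 n3'] at r2
  rw [hc.mul B' (A - B) n2' n3, hc.mul B (A' - B') n2 n3'] at r3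
  simp only [map_add, AddMonoidHom.add_apply] at r1 r2 r3
  have a1 := Q.alt A hA A' hA'
  have a2 := Q.alt A hA C hC
  have a3 := Q.alt A' hA' C hC
  have a4 := Q.alt B hB C hC
  have a5 := Q.alt B' hB' C hC
  have a6 := Q.alt (A - B) hD C hC
  have a7 := Q.alt (A' - B') hD' C hC
  have a8 := Q.alt A' hA' B' hB'
  have a9 := Q.alt A' hA' (A' - B') hD'
  have a10 := Q.alt B' hB' (A' - B') hD'
  have a11 := Q.alt B hB (A - B) hD
  linarith

theorem Loc.wd0 {A B A' B' : R} (hA : A ∈ SS Red) (hB : B ∈ SS Red) (hD : A - B ∈ SS Red)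
    (hA' : A' ∈ SS Red) (hB' : B' ∈ SS Red) (hD' : A' - B' ∈ SS Red)
    (h : A * B' = A' * B) : EE c τ A B = EE c τ A' B' := by
  rw [← EE.scale hc L.ne Q.alt hA hB hD hB', ← EE.scale hc L.ne Q.alt hA' hB' hD' hB, h,
    mul_comm B B']

theorem Loc.nice {a1 a2 b1 b2 a0 : R} (h1 : a1 ∈ Red) (h2 : a2 ∈ Red) (h3 : b1 ∈ Red)
    (h4 : b2 ∈ Red) (hD : a1 * a2 - b1 * b2 ∈ SS Red) (h0 : a0 ∈ Red)
    (h : π a0 * (π b1 * π b2) = π a1 * π a2) : EE c τ (a1 * a2) (b1 * b2) = EE c τ a0 1 := by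
  have hb1 := L.nz b1 h3
  have hb2 := L.nz b2 h4
  have hz0 := L.nz a0 h0
  -- `π a0 ≠ 1`
  have hz1 : π a0 ≠ 1 := by
    intro h5
    apply L.nzS hD
    rw [map_sub, map_mul, map_mul, ← h, h5]
    ring
  obtain ⟨a', ha', haπ⟩ := L.surj (π a0 * π b1) (mul_ne_zero hz0 hb1)
  have hne : a' ≠ b1 := by
    rintro rfl
    apply hz1
    have : (π a0 - 1) * π a' = 0 := by linear_combination (-1 : K) * haπ
    exact sub_eq_zero.mp ((mul_eq_zero.mp this).resolve_right hb1)
  have hD' : a' - b1 ∈ SS Red := L.sub a' ha' b1 h3 hne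
  obtain ⟨C0, hC0⟩ := L.ker (a1 * a2 - a' * b2) (by
    rw [map_sub, map_mul, map_mul, haπ]
    linear_combination (-1 : K) * h)
  have e1 : EE c τ (a1 * a2) (b1 * b2) = EE c τ a' b1 := by
    by_cases hC : C0 = 0
    · apply Q.wd0 hc L (mul_mem (SS.of h1) (SS.of h2)) (mul_mem (SS.of h3) (SS.of h4)) hD
        (SS.of ha') (SS.of h3) hD'
      rw [hC, mul_zero] at hC0
      linear_combination b1 * hC0
    · have hCS := L.quo a1 h1 a2 h2 a' ha' b2 h4 C0 hC0 hC
      exact Q.wd hc L (mul_mem (SS.of h1) (SS.of h2)) (mul_mem (SS.of h3) (SS.of h4)) hD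
        (SS.of ha') (SS.of h3) hD' (mul_mem (SS.of h3) hCS) (C := b1 * C0)
        (by linear_combination b1 * hC0)
  have hne1 : a0 ≠ 1 := by
    rintro rfl
    exact hz1 (map_one π)
  have hD1 : a0 - 1 ∈ SS Red := L.sub a0 h0 1 L.one_mem hne1
  obtain ⟨C1, hC1⟩ := L.ker (a' * 1 - a0 * b1) (by
    rw [map_sub, map_mul, map_mul, haπ, map_one]
    ring)
  have e2 : EE c τ a' b1 = EE c τ a0 1 := by
    by_cases hC : C1 = 0
    · apply Q.wd0 hc L (SS.of ha') (SS.of h3) hD' (SS.of h0) (one_mem _) hD1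
      rw [hC, mul_zero] at hC1
      linear_combination hC1
    · have hCS := L.quo a' ha' 1 L.one_mem a0 h0 b1 h3 C1 hC1 hC
      exact Q.wd hc L (SS.of ha') (SS.of h3) hD' (SS.of h0) (one_mem _) hD1 hCS hC1
  rw [e1, e2]

/-- all symbols of products of two reduced elements vanish -/
theorem Loc.main {a1 a2 b1 b2 : R} (h1 : a1 ∈ Red) (h2 : a2 ∈ Red) (h3 : b1 ∈ Red)
    (h4 : b2 ∈ Red) (hD : a1 * a2 - b1 * b2 ∈ SS Red) : EE c τ (a1 * a2) (b1 * b2) = 0 := by
  classical
  let rep : K → R := fun z => if h : z ≠ 0 then Classical.choose (L.surj z h) else 1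
  have hrep : ∀ z : K, z ≠ 0 → rep z ∈ Red ∧ π (rep z) = z := by
    intro z hz
    have : rep z = Classical.choose (L.surj z hz) := by simp [rep, hz]
    rw [this]
    exact Classical.choose_spec (L.surj z hz)
  let e : K → ℚ := fun z => EE c τ (rep z) 1
  have he : ∀ a1 ∈ Red, ∀ a2 ∈ Red, ∀ b1 ∈ Red, ∀ b2 ∈ Red, a1 * a2 - b1 * b2 ∈ SS Red →
      ∀ z : K, z * (π b1 * π b2) = π a1 * π a2 → e z = EE c τ (a1 * a2) (b1 * b2) := by
    intro a1 h1 a2 h2 b1 h3 b2 h4 hD z hz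
    have hz0 : z ≠ 0 := by
      rintro rfl
      rw [zero_mul] at hz
      exact mul_ne_zero (L.nz a1 h1) (L.nz a2 h2) hz.symm
    obtain ⟨r1, r2⟩ := hrep z hz0
    exact (Q.nice hc L h1 h2 h3 h4 hD r1 (by rw [r2, hz])).symm
  -- elements different from 0, 1
  have hel : ∀ z : K, z ≠ 0 → z ≠ 1 → ∃ a ∈ Red, π a = z ∧ a ≠ 1 ∧ a - 1 ∈ Red ∧
      e z = τ (c (a - 1)) (c a) := by
    intro z hz0 hz1
    obtain ⟨a, ha, haz⟩ := L.surj z hz0
    have ha1 : a ≠ 1 := by
      rintro rfl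
      exact hz1 (by rw [← haz, map_one])
    have ha2 := L.sub_one a ha ha1
    refine ⟨a, ha, haz, ha1, ha2, ?_⟩
    rw [he a ha 1 L.one_mem 1 L.one_mem 1 L.one_mem (by
      rw [mul_one, mul_one]; exact SS.of ha2) z (by rw [haz, map_one]; ring)]
    unfold EE
    rw [mul_one, mul_one, hc.one]
    simp only [map_zero, AddMonoidHom.zero_apply, zero_add]
  have key : ∀ z : K, z ≠ 0 → z ≠ 1 → e z = 0 := by
    intro z0 hz00 hz01
    refine b2zero L.locfin e ?_ ?_ ?_ z0 hz00 hz01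
    · intro z hz0 hz1
      obtain ⟨a, ha, haz, ha1, ha2, hea⟩ := hel z hz0 hz1
      have hD : (1 : R) * 1 - a * 1 ∈ SS Red := by
        have : (1 : R) * 1 - a * 1 = -(a - 1) := by ring
        rw [this]
        exact SS.neg (SS.of ha2)
      rw [he 1 L.one_mem 1 L.one_mem a ha 1 L.one_mem hD z⁻¹ (by
        rw [haz, map_one]; field_simp), hea]
      unfold EE
      have e1 : (1 : R) * 1 - a * 1 = -(a - 1) := by ring
      rw [e1, mul_one, mul_one, hc.one, hc.app_neg (τ (c a)) (L.ne _ ha2)]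
      simp only [map_zero, AddMonoidHom.zero_apply, zero_add, add_zero]
      exact Q.alt a (SS.of ha) (a - 1) (SS.of ha2)
    · intro z hz0 hz1
      obtain ⟨a, ha, haz, ha1, ha2, hea⟩ := hel z hz0 hz1
      have e1 : (a - 1) * 1 - a * 1 = -1 := by ring
      have hD : (a - 1) * 1 - a * 1 ∈ SS Red := by
        rw [e1]
        exact SS.neg (one_mem _)
      rw [he (a - 1) ha2 1 L.one_mem a ha 1 L.one_mem hD (1 - z⁻¹) (by
        rw [map_sub, haz, map_one]; field_simp), hea]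
      unfold EE
      rw [e1, mul_one, mul_one, hc.app_neg (τ (c a)) one_ne_zero,
        hc.app_neg' τ one_ne_zero, hc.one]
      simp only [map_zero, AddMonoidHom.zero_apply, add_zero]
    · intro z w hz0 hz1 hw0 hw1 hzw
      obtain ⟨a, ha, haz, ha1, ha2, hea⟩ := hel z hz0 hz1
      obtain ⟨b, hb, hbw, hb1, hb2, heb⟩ := hel w hw0 hw1
      have hz2 : z - 1 ≠ 0 := sub_ne_zero.2 hz1
      have hw2 : w - 1 ≠ 0 := sub_ne_zero.2 hw1
      have hab : a ≠ b := by
        rintro rfl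
        exact hzw (by rw [← haz, hbw])
      have hm : a - b ∈ SS Red := L.sub a ha b hb hab
      have f1 : e (w / z) = EE c τ (b * 1) (a * 1) := by
        apply he b hb 1 L.one_mem a ha 1 L.one_mem
        · have : b * 1 - a * 1 = -(a - b) := by ring
          rw [this]; exact SS.neg hm
        · rw [haz, hbw, map_one]; field_simp
      have f2 : e (z * (w - 1) / (w * (z - 1))) = EE c τ (a * (b - 1)) (b * (a - 1)) := by
        apply he a ha (b - 1) hb2 b hb (a - 1) ha2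
        · have : a * (b - 1) - b * (a - 1) = -(a - b) := by ring
          rw [this]; exact SS.neg hm
        · rw [map_sub, map_sub, haz, hbw, map_one]; field_simp
      have f3 : e ((w - 1) / (z - 1)) = EE c τ ((b - 1) * 1) ((a - 1) * 1) := by
        apply he (b - 1) hb2 1 L.one_mem (a - 1) ha2 1 L.one_mem
        · have : (b - 1) * 1 - (a - 1) * 1 = -(a - b) := by ring
          rw [this]; exact SS.neg hm
        · rw [map_sub, map_sub, haz, hbw, map_one]; field_simp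
      rw [f1, f2, f3, hea, heb]
      have g1 : b * 1 - a * 1 = -(a - b) := by ring
      have g2 : a * (b - 1) - b * (a - 1) = -(a - b) := by ring
      have g3 : (b - 1) * 1 - (a - 1) * 1 = -(a - b) := by ring
      unfold EE
      have nm := L.neS hm
      rw [g1, g2, g3]
      simp only [hc.app_neg' τ nm]
      have hn : ∀ x : W, τ x (c (-(a - b))) = τ x (c (a - b)) := fun x => hc.app_neg (τ x) nm
      simp only [hn]
      rw [mul_one, mul_one, mul_one, mul_one, hc.mul a (b - 1) (L.ne a ha) (L.ne _ hb2),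
        hc.mul b (a - 1) (L.ne b hb) (L.ne _ ha2)]
      simp only [map_add, AddMonoidHom.add_apply]
      have t1 := Q.alt a (SS.of ha) b (SS.of hb)
      have t2 := Q.alt a (SS.of ha) (a - 1) (SS.of ha2)
      have t3 := Q.alt a (SS.of ha) (b - 1) (SS.of hb2)
      have t4 := Q.alt b (SS.of hb) (a - 1) (SS.of ha2)
      have t5 := Q.alt b (SS.of hb) (b - 1) (SS.of hb2)
      have t6 := Q.alt (a - 1) (SS.of ha2) (b - 1) (SS.of hb2)
      have t7 := Q.alt a (SS.of ha) (a - b) hm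
      have t8 := Q.alt b (SS.of hb) (a - b) hm
      have t9 := Q.alt (a - 1) (SS.of ha2) (a - b) hm
      have t10 := Q.alt (b - 1) (SS.of hb2) (a - b) hm
      linarith
  have hb1 := L.nz b1 h3
  have hb2 := L.nz b2 h4
  set z : K := π a1 * π a2 / (π b1 * π b2) with hz
  have hz0 : z ≠ 0 := div_ne_zero (mul_ne_zero (L.nz a1 h1) (L.nz a2 h2)) (mul_ne_zero hb1 hb2)
  have hz3 : z * (π b1 * π b2) = π a1 * π a2 := div_mul_cancel₀ _ (mul_ne_zero hb1 hb2)
  have hz1 : z ≠ 1 := by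
    intro h5
    apply L.nzS hD
    rw [map_sub, map_mul, map_mul, ← hz3, h5]
    ring
  rw [← he a1 h1 a2 h2 b1 h3 b2 h4 hD z hz3]
  exact key z hz0 hz1

end

end Pool.Agent.Q22.GW
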