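import Pool.Agent.Q22.GW.Tower
import Pool.Agent.H39R2.Gon.Base

/-!
# `SpanDual F 0` and `SpanDual F 1` for the fraction field `F` of a ring with a tower
-/

set_option linter.unusedSectionVars false

namespace Pool.Agent.Q22.GW

open H39Gon

section W

variable {W : Type} [AddCommGroup W]

/-- the bilinear form of a `MultilinearMap` -/
def biOf (Q : MultilinearMap ℤ (fun _ : Fin 1 => W) (W →ₗ[ℤ] ℚ)) : W →+ W →+ ℚ :=
  AddMonoidHom.mk' (fun x => (Q (fun _ => x)).toAddMonoidHom) (by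
    intro x x'
    have h := Q.map_update_add (fun _ => x) 0 x x'
    have e : ∀ y : W, Function.update (fun _ : Fin 1 => x) 0 y = fun _ => y := by
      intro y
      funext i
      have : i = 0 := Subsingleton.elim _ _
      subst this
      simp
    rw [e, e, e] at h
    rw [h]
    rfl)

theorem biOf_apply (Q : MultilinearMap ℤ (fun _ : Fin 1 => W) (W →ₗ[ℤ] ℚ)) (x y : W) :
    biOf Q x y = Q (fun _ => x) y := rfl

theorem up0 (x y a : W) : Function.update (![x, y] : Fin 2 → W) 0 a = ![a, y] := by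
  funext i
  fin_cases i <;> simp

theorem up1 (x y a : W) : Function.update (![x, y] : Fin 2 → W) 1 a = ![x, a] := by
  funext i
  fin_cases i <;> simp

theorem add0 (Q : MultilinearMap ℤ (fun _ : Fin 2 => W) (W →ₗ[ℤ] ℚ)) (x x' y : W) :
    Q ![x + x', y] = Q ![x, y] + Q ![x', y] := by
  have h := Q.map_update_add ![x, y] 0 x x'
  simpa only [up0] using h

theorem add1 (Q : MultilinearMap ℤ (fun _ : Fin 2 => W) (W →ₗ[ℤ] ℚ)) (x y y' : W) :
    Q ![x, y + y'] = Q ![x, y] + Q ![x, y'] := by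
  have h := Q.map_update_add ![x, y] 1 y y'
  simpa only [up1] using h

/-- the trilinear form of a `MultilinearMap`, symmetric in the first two variables -/
def triOf (Q : MultilinearMap ℤ (fun _ : Fin 2 => W) (W →ₗ[ℤ] ℚ)) : W →+ W →+ W →+ ℚ :=
  AddMonoidHom.mk' (fun x => AddMonoidHom.mk' (fun y => (Q ![x, y] + Q ![y, x]).toAddMonoidHom) (by
    intro y y'
    rw [add0, add1]
    ext z
    change Q ![x, y] z + Q ![x, y'] z + (Q ![y, x] z + Q ![y', x] z) =
      (Q ![x, y] z + Q ![y, x] z) + (Q ![x, y'] z + Q ![y', x] z)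
    ring)) (by
    intro x x'
    ext y z
    change (Q ![x + x', y] + Q ![y, x + x']) z = (Q ![x, y] z + Q ![y, x] z) +
      (Q ![x', y] z + Q ![y, x'] z)
    rw [add0, add1]
    change Q ![x, y] z + Q ![x', y] z + (Q ![y, x] z + Q ![y, x'] z) = _
    ring)

theorem triOf_apply (Q : MultilinearMap ℤ (fun _ : Fin 2 => W) (W →ₗ[ℤ] ℚ)) (x y z : W) :
    triOf Q x y z = Q ![x, y] z + Q ![y, x] z := rfl

theorem triOf_diag (Q : MultilinearMap ℤ (fun _ : Fin 2 => W) (W →ₗ[ℤ] ℚ)) (x z : W) :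
    triOf Q x x z = 2 * Q (fun _ => x) z := by
  rw [triOf_apply]
  have : (![x, x] : Fin 2 → W) = fun _ => x := by
    funext i
    fin_cases i <;> simp
  rw [this]
  ring

/-- polarisation -/
theorem cyc_of_diag (F : W →+ W →+ W →+ ℚ) (hsym : ∀ x y z, F x y z = F y x z)
    (h : ∀ x, F x x x = 0) (x y z : W) : F x y z + F y z x + F z x y = 0 := by
  have h1 := h (x + y + z)
  have h2 := h (x + y)
  have h3 := h (y + z)
  have h4 := h (x + z)
  have h5 := h x
  have h6 := h y
  have h7 := h z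
  simp only [map_add, AddMonoidHom.add_apply] at h1 h2 h3 h4
  have s1 := hsym x y x
  have s2 := hsym x y y
  have s3 := hsym x y z
  have s4 := hsym x z x
  have s5 := hsym x z y
  have s6 := hsym x z z
  have s7 := hsym y z x
  have s8 := hsym y z y
  have s9 := hsym y z z
  linarith

end W

section F

variable {F : Type} [Field F]

theorem cl_mul {x y : F} (hx : x ≠ 0) (hy : y ≠ 0) : cl (x * y) = cl x + cl y := by
  unfold cl
  rw [dif_neg hx, dif_neg hy, dif_neg (mul_ne_zero hx hy), ← ofMul_mul]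
  congr 1
  ext
  rfl

theorem cl_one' : cl (1 : F) = 0 := by
  have h := cl_mul (F := F) one_ne_zero one_ne_zero
  rw [mul_one] at h
  simpa using h

theorem cl_inv {x : F} (hx : x ≠ 0) : cl x⁻¹ = - cl x := by
  have h := cl_mul hx (inv_ne_zero hx)
  rw [mul_inv_cancel₀ hx, cl_one'] at h
  exact (neg_eq_of_add_eq_zero_right h.symm).symm

theorem cl_div {x y : F} (hx : x ≠ 0) (hy : y ≠ 0) : cl (x / y) = cl x - cl y := by
  rw [div_eq_mul_inv, cl_mul hx (inv_ne_zero hy), cl_inv hy, sub_eq_add_neg]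

theorem cl_neg_one : (2 : ℕ) • cl (-1 : F) = 0 := by
  have h := cl_mul (F := F) (x := -1) (y := -1) (neg_ne_zero.2 one_ne_zero)
    (neg_ne_zero.2 one_ne_zero)
  rw [neg_one_mul, neg_neg, cl_one'] at h
  rw [two_nsmul]
  exact h.symm

theorem app_neg_one (f : UV F →+ ℚ) : f (cl (-1 : F)) = 0 := by
  have h := congrArg f (cl_neg_one (F := F))
  rw [map_nsmul, map_zero, nsmul_eq_mul] at h
  exact (mul_eq_zero.mp h).resolve_left (by norm_num)

theorem cl_neg {x : F} (hx : x ≠ 0) : cl (-x) = cl (-1) + cl x := by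
  rw [← cl_mul (neg_ne_zero.2 one_ne_zero) hx, neg_one_mul]

theorem app_cl_neg (f : UV F →+ ℚ) {x : F} (hx : x ≠ 0) : f (cl (-x)) = f (cl x) := by
  rw [cl_neg hx, map_add, app_neg_one, zero_add]

theorem exists_cl (v : UV F) : ∃ x : F, x ≠ 0 ∧ v = cl x := by
  refine ⟨((Additive.toMul v : Fˣ) : F), Units.ne_zero _, ?_⟩
  unfold cl
  rw [dif_neg (Units.ne_zero _)]
  simp

end F

section main

variable {R : Type} [CommRing R] [IsDomain R] {F : Type} [Field F] [Algebra R F]
  [IsFractionRing R F]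

/-- the logarithm -/
noncomputable def cR (R : Type) [CommRing R] {F : Type} [Field F] [Algebra R F] (a : R) : UV F :=
  cl (algebraMap R F a)

theorem amap_ne {a : R} (h : a ≠ 0) : algebraMap R F a ≠ 0 := by
  intro h0
  exact h ((IsFractionRing.injective R F) (by rw [h0, map_zero]))

theorem isCl_cR (hU : ∀ u : R, IsUnit u → ∃ n : ℕ, 0 < n ∧ u ^ n = 1) :
    IsCl (cR R (F := F)) := by
  have hmul : ∀ a b : R, a ≠ 0 → b ≠ 0 → cR R (F := F) (a * b) = cR R a + cR R b := by
    intro a b ha hb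
    unfold cR
    rw [map_mul, cl_mul (amap_ne ha) (amap_ne hb)]
  refine ⟨hmul, ?_⟩
  intro u hu
  obtain ⟨n, hn, h⟩ := hU u hu
  refine ⟨n, hn, ?_⟩
  have key : ∀ m : ℕ, m • cR R (F := F) u = cR R (u ^ m) := by
    intro m
    induction m with
    | zero =>
      rw [zero_nsmul, pow_zero]
      unfold cR
      rw [map_one, cl_one']
    | succ m ih =>
      rw [succ_nsmul, ih, pow_succ, hmul _ _ (pow_ne_zero _ hu.ne_zero) hu.ne_zero]
  rw [key, h]
  unfold cR
  rw [map_one, cl_one']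

theorem exists_cR (v : UV F) : ∃ a b : R, a ≠ 0 ∧ b ≠ 0 ∧ v = cR R a - cR R b := by
  obtain ⟨x, hx, rfl⟩ := exists_cl v
  obtain ⟨a, b, hb, rfl⟩ := IsFractionRing.div_surjective (A := R) x
  have hb0 : b ≠ 0 := nonZeroDivisors.ne_zero hb
  have ha0 : a ≠ 0 := by
    rintro rfl
    exact hx (by simp)
  exact ⟨a, b, ha0, hb0, cl_div (amap_ne ha0) (amap_ne hb0)⟩

/-- the relation `A - B = Z` -/
theorem cl_rel {A B Z : R} (hA : A ≠ 0) (hB : B ≠ 0) (hZ : Z ≠ 0) (h : A - B = Z) :
    ∃ f : F, f ≠ 0 ∧ f ≠ 1 ∧ cl f = cR R A - cR R Z ∧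
      cl (1 - f) = cl (-1) + (cR R B - cR R Z) := by
  refine ⟨algebraMap R F A / algebraMap R F Z, div_ne_zero (amap_ne hA) (amap_ne hZ), ?_,
    cl_div (amap_ne hA) (amap_ne hZ), ?_⟩
  · intro h1
    rw [div_eq_one_iff_eq (amap_ne hZ)] at h1
    have h2 := (IsFractionRing.injective R F) h1
    apply hB
    linear_combination h2 - h
  · have h1 : (1 : F) - algebraMap R F A / algebraMap R F Z =
        -(algebraMap R F B / algebraMap R F Z) := by
      have h2 := amap_ne (F := F) hZ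
      have h3 : algebraMap R F A - algebraMap R F B = algebraMap R F Z := by
        rw [← map_sub, h]
      field_simp
      linear_combination (-1 : F) * h3
    rw [h1, cl_neg (div_ne_zero (amap_ne hB) (amap_ne hZ)), cl_div (amap_ne hB) (amap_ne hZ)]
    rfl

variable {Red Pr : ℕ → Set R} (T : Tower Red Pr) (hex : ∀ a : R, a ≠ 0 → ∃ d, a ∈ SS (Red d))
  (hU : ∀ u : R, IsUnit u → ∃ n : ℕ, 0 < n ∧ u ^ n = 1)

include T hex hU

theorem spanDual0 : SpanDual F 0 := by
  intro Q hQ s v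
  have hc := isCl_cR (F := F) hU
  set q : UV F →+ UV F →+ ℚ := biOf Q with hq
  have h0 : ∀ f : F, f ≠ 0 → f ≠ 1 → q (cl f) (cl (1 - f)) = 0 := hQ
  -- `q` is alternating
  have h1 : ∀ x, q x x = 0 := by
    intro x
    obtain ⟨f, hf, rfl⟩ := exists_cl x
    by_cases hf1 : f = 1
    · subst hf1; rw [cl_one', map_zero]
    · have h2 := h0 f hf hf1
      have h3 := h0 f⁻¹ (inv_ne_zero hf) (fun h => hf1 (inv_eq_one.mp h))
      have h4 : (1 : F) - f⁻¹ = -((1 - f) / f) := by field_simp; ring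
      have h5 : (1 : F) - f ≠ 0 := sub_ne_zero.2 (Ne.symm hf1)
      rw [cl_inv hf, map_neg, AddMonoidHom.neg_apply, h4, app_cl_neg (q (cl f)) (div_ne_zero h5 hf),
        cl_div h5 hf, map_sub, h2] at h3
      linarith
  have hanti : ∀ x y, q x y = - q y x := by
    intro x y
    have h2 := h1 (x + y)
    simp only [map_add, AddMonoidHom.add_apply, h1] at h2
    linarith
  have hEE : ∀ A B : R, A ≠ 0 → B ≠ 0 → A - B ≠ 0 → EE (cR R) q A B = 0 := by
    intro A B hA hB hZ
    obtain ⟨f, hf, hf1, e1, e2⟩ := cl_rel (F := F) hA hB hZ rfl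
    have h2 := h0 f hf hf1
    rw [e1, e2, map_add, app_neg_one, zero_add] at h2
    simp only [map_sub, AddMonoidHom.sub_apply, h1] at h2
    unfold EE
    have h3 := hanti (cR R (A - B)) (cR R B)
    have h4 := hanti (cR R A) (cR R (A - B))
    linarith
  have key : ∀ a b : R, a ≠ 0 → b ≠ 0 → q (cR R a) (cR R b) = 0 := by
    intro a b ha hb
    obtain ⟨d, hd⟩ := hex a ha
    obtain ⟨e, he⟩ := hex b hb
    have h2 := T.k2 hc (max d e) q (fun a _ b _ => hanti _ _)
      (fun a1 h1 a2 h2 b1 h3 b2 h4 hD => hEE _ _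
        (mul_ne_zero (T.ne _ _ h1) (T.ne _ _ h2)) (mul_ne_zero (T.ne _ _ h3) (T.ne _ _ h4))
        (SS.ne (T.ne _) hD)) (max d e) le_rfl
    exact h2 a (SS.mono (T.mono' (le_max_left d e)) hd) b (SS.mono (T.mono' (le_max_right d e)) he)
  obtain ⟨a, b, ha, hb, rfl⟩ := exists_cR (R := R) s
  obtain ⟨a', b', ha', hb', rfl⟩ := exists_cR (R := R) v
  change q (cR R a - cR R b) (cR R a' - cR R b') = 0
  simp only [map_sub, AddMonoidHom.sub_apply, key _ _ ha ha', key _ _ hb ha', key _ _ ha hb',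
    key _ _ hb hb']
  ring

theorem spanDual1 : SpanDual F 1 := by
  intro Q hQ s v
  have hc := isCl_cR (F := F) hU
  set G : UV F →+ UV F →+ UV F →+ ℚ := triOf Q with hG
  have hsym : ∀ x y z, G x y z = G y x z := by
    intro x y z
    rw [hG, triOf_apply, triOf_apply]
    ring
  have h0 : ∀ f : F, f ≠ 0 → f ≠ 1 → G (cl f) (cl f) (cl (1 - f)) = 0 := by
    intro f hf hf1
    rw [hG, triOf_diag, hQ f hf hf1, mul_zero]
  have h1 : ∀ x, G x x x = 0 := by
    intro x
    obtain ⟨f, hf, rfl⟩ := exists_cl x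
    by_cases hf1 : f = 1
    · subst hf1; rw [cl_one', map_zero]
    · have h2 := h0 f hf hf1
      have h3 := h0 f⁻¹ (inv_ne_zero hf) (fun h => hf1 (inv_eq_one.mp h))
      have h4 : (1 : F) - f⁻¹ = -((1 - f) / f) := by field_simp; ring
      have h5 : (1 : F) - f ≠ 0 := sub_ne_zero.2 (Ne.symm hf1)
      rw [cl_inv hf, h4] at h3
      simp only [map_neg, AddMonoidHom.neg_apply, neg_neg] at h3
      rw [app_cl_neg (G (cl f) (cl f)) (div_ne_zero h5 hf), cl_div h5 hf, map_sub, h2] at h3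
      linarith
  have hneg1 : ∀ y z, G (cl (-1)) y z = 0 := fun y z => app_neg_one ((G.flip y).flip z)
  have hneg2 : ∀ y z, G y (cl (-1)) z = 0 := fun y z => by rw [hsym, hneg1]
  have hneg3 : ∀ y z, G y z (cl (-1)) = 0 := fun y z => app_neg_one (G y z)
  have X : Tri (cR R (F := F)) G := by
    refine ⟨hsym, cyc_of_diag G hsym h1, ?_, ?_⟩
    · intro A B Z hA hB hZ h
      obtain ⟨f, hf, hf1, e1, e2⟩ := cl_rel (F := F) hA hB hZ h
      have h2 := h0 f hf hf1
      rw [e1, e2, map_add, hneg3, zero_add] at h2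
      exact h2
    · intro A B Z hA hB hZ h
      obtain ⟨f, hf, hf1, e1, e2⟩ := cl_rel (F := F) hA hB hZ h
      have h2 := h0 (1 - f) (sub_ne_zero.2 (Ne.symm hf1)) (by
        intro h3
        exact hf (by linear_combination (-1 : F) * h3))
      have e3 : (1 : F) - (1 - f) = f := by ring
      rw [e3, e1, e2] at h2
      generalize cR R (F := F) B - cR R Z = y at h2 ⊢
      generalize cR R (F := F) A - cR R Z = x at h2 ⊢
      simp only [map_add, AddMonoidHom.add_apply, hneg1, hneg2, zero_add] at h2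
      exact h2
  have key : ∀ a b e : R, a ≠ 0 → b ≠ 0 → e ≠ 0 → G (cR R a) (cR R b) (cR R e) = 0 := by
    intro a b e ha hb he
    obtain ⟨d1, h1⟩ := hex a ha
    obtain ⟨d2, h2⟩ := hex b hb
    obtain ⟨d3, h3⟩ := hex e he
    exact T.main hc X (max d1 (max d2 d3)) a (SS.mono (T.mono' (le_max_left _ _)) h1) b
      (SS.mono (T.mono' ((le_max_left _ _).trans (le_max_right _ _))) h2) e
      (SS.mono (T.mono' ((le_max_right _ _).trans (le_max_right _ _))) h3)
  have h2 : G s s v = 0 := by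
    obtain ⟨a, b, ha, hb, rfl⟩ := exists_cR (R := R) s
    obtain ⟨a', b', ha', hb', rfl⟩ := exists_cR (R := R) v
    simp only [map_sub, AddMonoidHom.sub_apply, key _ _ _ ha ha ha', key _ _ _ hb ha ha',
      key _ _ _ ha hb ha', key _ _ _ hb hb ha', key _ _ _ ha ha hb', key _ _ _ hb ha hb',
      key _ _ _ ha hb hb', key _ _ _ hb hb hb']
    ring
  rw [hG, triOf_diag] at h2
  linarith

end main

end Pool.Agent.Q22.GW
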