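import Pool.Agent.Q22.GW.Poly
import Pool.Agent.Q22.GW.Span
import Pool.Agent.Q22.GW.Cx

/-!
# The polylogarithmic complexes of `k(x)`, `k` algebraic over `F_p`
-/

namespace Pool.Agent.Q22.GW

open Polynomial H39Gon Pool.Agent.TH358.GP

variable (p : ℕ) [Fact p.Prime] (k : Type) [Field k] [Algebra (ZMod p) k]
  [Algebra.IsAlgebraic (ZMod p) k]

include p in
theorem torsU_poly (u : k[X]) (hu : IsUnit u) : ∃ n : ℕ, 0 < n ∧ u ^ n = 1 := by
  obtain ⟨r, hr, rfl⟩ := Polynomial.isUnit_iff.mp hu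
  obtain ⟨n, hn, h⟩ := (locFin_of_algebraic p k).order hr.ne_zero
  exact ⟨n, hn, by rw [← C_pow, h, C_1]⟩

theorem hex_poly (a : k[X]) (ha : a ≠ 0) : ∃ d, a ∈ SS (RedP k d) :=
  ⟨a.natDegree, SS.of ⟨ha, le_rfl⟩⟩

include p in
theorem spanDual0_ratFunc : SpanDual (RatFunc k) 0 :=
  spanDual0 (R := k[X]) (tower_poly k p) (hex_poly k) (torsU_poly p k)

include p in
theorem spanDual1_ratFunc : SpanDual (RatFunc k) 1 :=
  spanDual1 (R := k[X]) (tower_poly k p) (hex_poly k) (torsU_poly p k)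

include p in
theorem evS_rat : EvS (RatFunc k) :=
  evS_ratFunc k (evS_base (fun x => by
    obtain ⟨L, hL, hx, _⟩ := locFin_of_algebraic p k x x
    exact ⟨L, hL, hx⟩))

include p in
theorem ratFunc_complexes : ∃ D : GonP.Differentials (RatFunc k),
    (∀ D' : GonP.Differentials (RatFunc k), D' = D) ∧
      ((∀ m, Function.Injective (D.d m 0)) ∧ Function.Injective (D.e 0)) ∧
      (∀ j, Function.Exact (D.d 0 j) (D.e (j + 1))) ∧
      (∀ j, Function.Surjective (D.e j)) :=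
  complexes (evS_rat p k) (spanDual0_ratFunc p k) (spanDual1_ratFunc p k)

end Pool.Agent.Q22.GW
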