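import Pool.Agent.Q22.GW.Span

/-!
# The tower of the ring of integers
-/

set_option linter.unusedSectionVars false

namespace Pool.Agent.Q22.GW

/-- the integers `1, ..., d + 1` -/
def RedZ (d : ℕ) : Set ℤ := {a | 0 < a ∧ a ≤ d + 1}

/-- the prime number `d + 2`, if it is prime -/
def PrZ (d : ℕ) : Set ℤ := {P | P = ((d + 2 : ℕ) : ℤ) ∧ (d + 2).Prime}

theorem SS_of_abs {d : ℕ} {a : ℤ} (h0 : a ≠ 0) (h : |a| ≤ d + 1) : a ∈ SS (RedZ d) := by
  rcases lt_or_gt_of_ne h0 with h1 | h1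
  · have h2 : -a ∈ SS (RedZ d) := SS.of ⟨by omega, by rw [abs_of_neg h1] at h; exact h⟩
    have := SS.neg h2
    rwa [neg_neg] at this
  · exact SS.of ⟨h1, by rw [abs_of_pos h1] at h; exact h⟩

theorem lev_int (d : ℕ) (P : ℤ) (hP : P ∈ PrZ d) :
    ∃ (K : Type) (_ : Field K) (π : ℤ →+* K), Lev (RedZ d) P π := by
  obtain ⟨rfl, hp⟩ := hP
  have : Fact (d + 2).Prime := ⟨hp⟩
  have hz : ∀ a : ℤ, Int.castRingHom (ZMod (d + 2)) a = 0 → ((d + 2 : ℕ) : ℤ) ∣ a := fun a h =>
    (ZMod.intCast_zmod_eq_zero_iff_dvd a (d + 2)).mp (by simpa using h)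
  have small : ∀ a : ℤ, |a| ≤ d + 1 → ((d + 2 : ℕ) : ℤ) ∣ a → a = 0 := by
    intro a ha h
    by_contra h0
    have h1 := Int.le_of_dvd (abs_pos.2 h0) ((dvd_abs _ _).2 h)
    push_cast at h1
    linarith
  refine ⟨ZMod (d + 2), inferInstance, Int.castRingHom (ZMod (d + 2)), ?_⟩
  constructor
  · intro x y
    exact ⟨⊤, inferInstance, trivial, trivial⟩
  · refine ⟨by norm_num, ?_⟩
    have : (0 : ℤ) ≤ d := by positivity
    linarith
  · exact_mod_cast (by omega : d + 2 ≠ 0)
  · exact hz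
  · rw [map_natCast]
    exact ZMod.natCast_self _
  · rintro a ⟨h1, h2⟩
    exact h1.ne'
  · rintro a ⟨h1, h2⟩ h
    exact h1.ne' (small a (by rw [abs_of_pos h1]; exact h2) (hz a h))
  · intro z hz0
    refine ⟨(z.val : ℤ), ⟨?_, ?_⟩, ?_⟩
    · have : z.val ≠ 0 := by
        intro h
        exact hz0 ((ZMod.val_eq_zero z).mp h)
      exact_mod_cast Nat.pos_of_ne_zero this
    · have := ZMod.val_lt z
      have h2 : z.val ≤ d + 1 := by omega
      exact_mod_cast h2
    · simp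
  · rintro a ⟨h1, h2⟩ b ⟨h3, h4⟩ h
    have h5 : ((d + 2 : ℕ) : ℤ) ∣ a - b := hz _ (by rw [map_sub, h, sub_self])
    have h6 := small (a - b) (abs_le.2 ⟨by linarith, by linarith⟩) h5
    linarith
  · rintro a ⟨h1, h2⟩ b ⟨h3, h4⟩ h
    exact SS_of_abs (sub_ne_zero.2 h) (abs_le.2 ⟨by linarith, by linarith⟩)
  · rintro a ⟨h1, h2⟩ h
    refine ⟨?_, by linarith⟩
    have : a ≠ 1 := h
    omega
  · rintro a1 ⟨h1, h1'⟩ a2 ⟨h2, h2'⟩ b1 ⟨h3, h3'⟩ b2 ⟨h4, h4'⟩ C hC hC0
    refine SS_of_abs hC0 ?_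
    have e1 : a1 * a2 ≤ (d + 1) * (d + 1) := mul_le_mul h1' h2' h2.le (by positivity)
    have e2 : b1 * b2 ≤ (d + 1) * (d + 1) := mul_le_mul h3' h4' h4.le (by positivity)
    have e3 : 0 < a1 * a2 := mul_pos h1 h2
    have e4 : 0 < b1 * b2 := mul_pos h3 h4
    push_cast at hC
    have hd : (0 : ℤ) ≤ d := by positivity
    by_contra hcon
    push Not at hcon
    rcases lt_or_gt_of_ne hC0 with h5 | h5
    · rw [abs_of_neg h5] at hcon
      nlinarith
    · rw [abs_of_pos h5] at hcon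
      nlinarith

theorem tower_int : Tower RedZ PrZ := by
  constructor
  · rintro a ⟨h1, h2⟩
    have : a = 1 := by
      push_cast at h2
      omega
    rw [this]
    exact isUnit_one
  · rintro d a ⟨h1, h2⟩
    exact h1.ne'
  · rintro d a ⟨h1, h2⟩
    refine ⟨h1, ?_⟩
    push_cast
    linarith
  · rintro d P ⟨rfl, hp⟩
    refine ⟨by positivity, ?_⟩
    push_cast
    linarith
  · rintro d a ⟨h1, h2⟩
    by_cases h3 : a ≤ d + 1
    · exact Submonoid.subset_closure (Or.inl (SS.of ⟨h1, h3⟩))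
    · have h4 : a = ((d + 2 : ℕ) : ℤ) := by
        push_cast at h2 ⊢
        linarith [Int.lt_iff_add_one_le.mp (not_le.mp h3)]
      by_cases hp : (d + 2).Prime
      · exact Submonoid.subset_closure (Or.inr ⟨h4, hp⟩)
      · obtain ⟨m, hm1, hm2, hm3⟩ := Nat.exists_dvd_of_not_prime (by omega) hp
        obtain ⟨q, hq⟩ := hm1
        have hm0 : 0 < m := by
          rcases Nat.eq_zero_or_pos m with h | h
          · subst h; omega
          · exact h
        have hq0 : 0 < q := by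
          rcases Nat.eq_zero_or_pos q with h | h
          · subst h; omega
          · exact h
        have hq1 : q ≠ 1 := by
          rintro rfl
          omega
        have hmle : m ≤ d + 1 := by
          have h5 : m ≤ d + 2 := Nat.le_of_dvd (by omega) ⟨q, hq⟩
          omega
        have hqle : q ≤ d + 1 := by
          have h5 : q ≤ d + 2 := Nat.le_of_dvd (by omega) ⟨m, by rw [hq, mul_comm]⟩
          have h6 : q ≠ d + 2 := by
            rintro rfl
            have : m = 1 := by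
              have h7 : (d + 2) * 1 = (d + 2) * m := by rw [mul_one, mul_comm]; exact hq
              exact (Nat.eq_of_mul_eq_mul_left (by omega) h7).symm
            exact hm2 this
          omega
        have e : a = (m : ℤ) * (q : ℤ) := by
          rw [h4, hq]
          push_cast
          ring
        rw [e]
        exact mul_mem (Submonoid.subset_closure (Or.inl (SS.of
            ⟨by exact_mod_cast hm0, by exact_mod_cast hmle⟩)))
          (Submonoid.subset_closure (Or.inl (SS.of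
            ⟨by exact_mod_cast hq0, by exact_mod_cast hqle⟩)))
  · exact fun d P hP => lev_int d P hP
  · rintro d P ⟨rfl, _⟩ Q ⟨rfl, _⟩ h
    exact absurd rfl h
  · rintro d P ⟨rfl, _⟩ Q ⟨rfl, _⟩ h
    exact absurd rfl h
  · rintro d P ⟨rfl, _⟩ Q ⟨rfl, _⟩ Q' _ h
    exact absurd rfl h

theorem hex_int (a : ℤ) (ha : a ≠ 0) : ∃ d, a ∈ SS (RedZ d) := by
  refine ⟨a.natAbs, SS_of_abs ha ?_⟩
  rw [Int.abs_eq_natAbs]
  linarith

theorem torsU_int (u : ℤ) (hu : IsUnit u) : ∃ n : ℕ, 0 < n ∧ u ^ n = 1 := by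
  rcases Int.isUnit_iff.mp hu with h | h
  · exact ⟨1, by norm_num, by rw [h]; norm_num⟩
  · exact ⟨2, by norm_num, by rw [h]; norm_num⟩

theorem spanDual0_rat : H39Gon.SpanDual ℚ 0 :=
  spanDual0 (R := ℤ) tower_int hex_int torsU_int

theorem spanDual1_rat : H39Gon.SpanDual ℚ 1 :=
  spanDual1 (R := ℤ) tower_int hex_int torsU_int

end Pool.Agent.Q22.GW
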