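import Pool.Agent.Q22.GW.B2

/-!
# One prime: the abstract setting
-/

set_option linter.unusedSectionVars false

namespace Pool.Agent.Q22.GW

variable {R : Type} [CommRing R] [IsDomain R] {W : Type} [AddCommGroup W]

/-- a logarithm: `c (ab) = c a + c b`, the values at units are torsion elements -/
structure IsCl (c : R → W) : Prop where
  mul : ∀ a b, a ≠ 0 → b ≠ 0 → c (a * b) = c a + c b
  unit : ∀ u, IsUnit u → ∃ n : ℕ, 0 < n ∧ n • c u = 0

section cl

variable {c : R → W} (hc : IsCl c)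
include hc

theorem IsCl.one : c 1 = 0 := by
  have h := hc.mul 1 1 one_ne_zero one_ne_zero
  rw [mul_one] at h
  simpa using h

theorem IsCl.app_unit (f : W →+ ℚ) {u : R} (hu : IsUnit u) : f (c u) = 0 := by
  obtain ⟨n, hn, h⟩ := hc.unit u hu
  have h1 := congrArg f h
  rw [map_nsmul, map_zero, nsmul_eq_mul] at h1
  exact (mul_eq_zero.mp h1).resolve_left (by positivity)

theorem IsCl.app_neg (f : W →+ ℚ) {a : R} (ha : a ≠ 0) : f (c (-a)) = f (c a) := by
  have h := hc.mul (-1) a (neg_ne_zero.2 one_ne_zero) ha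
  rw [neg_one_mul] at h
  rw [h, map_add, hc.app_unit f (u := (-1 : R)) isUnit_one.neg, zero_add]

theorem IsCl.app_neg' (f : W →+ W →+ ℚ) {a : R} (ha : a ≠ 0) (y : W) :
    f (c (-a)) y = f (c a) y := hc.app_neg (f.flip y) ha

end cl

/-- the multiplicative set generated by a set and the units -/
def SS (Red : Set R) : Submonoid R := Submonoid.closure (Red ∪ {u | IsUnit u})

theorem SS.of {Red : Set R} {a : R} (h : a ∈ Red) : a ∈ SS Red :=
  Submonoid.subset_closure (Or.inl h)

theorem SS.unit {Red : Set R} {a : R} (h : IsUnit a) : a ∈ SS Red :=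
  Submonoid.subset_closure (Or.inr h)

theorem SS.neg {Red : Set R} {a : R} (h : a ∈ SS Red) : -a ∈ SS Red := by
  rw [← neg_one_mul]
  exact mul_mem (SS.unit isUnit_one.neg) h

theorem SS.mono {Red Red' : Set R} (h : Red ⊆ Red') : SS Red ≤ SS Red' :=
  Submonoid.closure_mono (Set.union_subset_union_left _ h)

theorem SS.ne {Red : Set R} (h0 : ∀ a ∈ Red, a ≠ 0) {a : R} (h : a ∈ SS Red) : a ≠ 0 := by
  unfold SS at h
  induction h using Submonoid.closure_induction with
  | mem x hx =>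
    rcases hx with hx | hx
    · exact h0 x hx
    · exact hx.ne_zero
  | one => exact one_ne_zero
  | mul x y _ _ hx hy => exact mul_ne_zero hx hy

theorem SS.app {Red : Set R} (h0 : ∀ a ∈ Red, a ≠ 0) {c : R → W} (hc : IsCl c) (f : W →+ ℚ)
    (h : ∀ a ∈ Red, f (c a) = 0) {a : R} (ha : a ∈ SS Red) : f (c a) = 0 := by
  have h2 := ha
  unfold SS at h2
  induction h2 using Submonoid.closure_induction with
  | mem x hx =>
    rcases hx with hx | hx
    · exact h x hx
    · exact hc.app_unit f hx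
  | one => rw [hc.one, map_zero]
  | mul x y hx' hy' hx hy =>
    rw [hc.mul x y (SS.ne h0 hx') (SS.ne h0 hy'), map_add, hx hx', hy hy', add_zero]

/-- the subgroup generated by the values on `SS Red` -/
def VS (c : R → W) (Red : Set R) : AddSubgroup W := AddSubgroup.closure (c '' (SS Red : Set R))

theorem VS.of (c : R → W) {Red : Set R} {a : R} (h : a ∈ SS Red) : c a ∈ VS c Red :=
  AddSubgroup.subset_closure ⟨a, h, rfl⟩

theorem VS.app {c : R → W} {Red : Set R} (f : W →+ ℚ) (h : ∀ a ∈ SS Red, f (c a) = 0) {v : W}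
    (hv : v ∈ VS c Red) : f v = 0 := by
  unfold VS at hv
  induction hv using AddSubgroup.closure_induction with
  | mem x hx =>
    obtain ⟨a, ha, rfl⟩ := hx
    exact h a ha
  | zero => exact map_zero f
  | add x y _ _ hx hy => rw [map_add, hx, hy, add_zero]
  | neg x _ hx => rw [map_neg, hx, neg_zero]

/-- the data at one prime `P`: `Red` is a set of representatives of `(R/P)^*`, `K = R/P` -/
structure Lev (Red : Set R) (P : R) {K : Type} [Field K] (π : R →+* K) : Prop where
  locfin : LocFin K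
  one_mem : (1 : R) ∈ Red
  P_ne : P ≠ 0
  ker : ∀ a, π a = 0 → P ∣ a
  kerP : π P = 0
  ne : ∀ a ∈ Red, a ≠ 0
  nz : ∀ a ∈ Red, π a ≠ 0
  surj : ∀ z : K, z ≠ 0 → ∃ a ∈ Red, π a = z
  uniq : ∀ a ∈ Red, ∀ b ∈ Red, π a = π b → a = b
  sub : ∀ a ∈ Red, ∀ b ∈ Red, a ≠ b → a - b ∈ SS Red
  sub_one : ∀ a ∈ Red, a ≠ 1 → a - 1 ∈ Red
  quo : ∀ a1 ∈ Red, ∀ a2 ∈ Red, ∀ b1 ∈ Red, ∀ b2 ∈ Red, ∀ C, a1 * a2 - b1 * b2 = P * C →
    C ≠ 0 → C ∈ SS Red

section lev

variable {Red : Set R} {P : R} {K : Type} [Field K] {π : R →+* K} (L : Lev Red P π)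
  {c : R → W} (hc : IsCl c)
include L

theorem Lev.nzS {a : R} (h : a ∈ SS Red) : π a ≠ 0 := by
  unfold SS at h
  induction h using Submonoid.closure_induction with
  | mem x hx =>
    rcases hx with hx | hx
    · exact L.nz x hx
    · exact (hx.map π).ne_zero
  | one => rw [map_one]; exact one_ne_zero
  | mul x y _ _ hx hy => rw [map_mul]; exact mul_ne_zero hx hy

theorem Lev.neS {a : R} (h : a ∈ SS Red) : a ≠ 0 := SS.ne L.ne h

include hc

/-- powers -/
theorem Lev.pow (f : W →+ ℚ) {t : R} (ht : t ∈ Red)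
    (h : ∀ g ∈ Red, ∀ g' ∈ Red, π g' = π g * π t → f (c g') = f (c g) + f (c t)) :
    f (c t) = 0 := by
  obtain ⟨n, hn, hn1⟩ := L.locfin.order (L.nz t ht)
  have key : ∀ j : ℕ, ∀ g ∈ Red, π g = π t ^ j → f (c g) = j * f (c t) := by
    intro j
    induction j with
    | zero =>
      intro g hg hgt
      have h1 : g = 1 := L.uniq g hg 1 L.one_mem (by rw [hgt, pow_zero, map_one])
      rw [h1, hc.one, map_zero]
      simp
    | succ j ih =>
      intro g hg hgt
      obtain ⟨g0, hg0, hg0t⟩ := L.surj (π t ^ j) (pow_ne_zero _ (L.nz t ht))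
      rw [h g0 hg0 g hg (by rw [hgt, hg0t, pow_succ]), ih g0 hg0 hg0t]
      push_cast
      ring
  have h2 := key n 1 L.one_mem (by rw [map_one, hn1])
  rw [hc.one, map_zero] at h2
  exact (mul_eq_zero.mp h2.symm).resolve_left (by positivity)

/-- homomorphisms -/
theorem Lev.hom (f : W →+ ℚ)
    (h : ∀ a1 ∈ Red, ∀ a2 ∈ Red, ∀ a3 ∈ Red, π a3 = π a1 * π a2 →
      f (c a3) = f (c a1) + f (c a2)) {v : W} (hv : v ∈ VS c Red) : f v = 0 :=
  VS.app f (fun _ ha => SS.app L.ne hc f
    (fun t ht => L.pow hc f ht (fun g hg g' hg' hgg => h g hg t ht g' hg' hgg)) ha) hv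

/-- the quadratic lemma -/
theorem Lev.quad (B : W →+ W →+ ℚ) (hB : ∀ x y, B x y = B y x)
    (h : ∀ a1 ∈ Red, ∀ a2 ∈ Red, ∀ b1 ∈ Red, ∀ b2 ∈ Red, π (a1 * a2) = π (b1 * b2) →
      B (c a1 + c a2 - c b1 - c b2) (c a1 + c a2 - c b1 - c b2) = 0)
    {v w : W} (hv : v ∈ VS c Red) (hw : w ∈ VS c Red) : B v w = 0 := by
  -- `B (ω (g, t), ω (k, t)) = 0`
  have h2 : ∀ g ∈ Red, ∀ k ∈ Red, ∀ t ∈ Red, ∀ gt ∈ Red, ∀ kt ∈ Red, π gt = π g * π t →
      π kt = π k * π t → B (c gt - c g - c t) (c kt - c k - c t) = 0 := by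
    intro g hg k hk t ht gt hgt kt hkt e1 e2
    have a1 := h gt hgt 1 L.one_mem g hg t ht (by rw [mul_one, map_mul, e1])
    have a2 := h kt hkt 1 L.one_mem k hk t ht (by rw [mul_one, map_mul, e2])
    have a3 := h gt hgt k hk g hg kt hkt (by rw [map_mul, map_mul, e1, e2]; ring)
    have e1 : c gt + c 1 - c g - c t = c gt - c g - c t := by rw [hc.one, add_zero]
    have e2 : c kt + c 1 - c k - c t = c kt - c k - c t := by rw [hc.one, add_zero]
    have e3 : c gt + c k - c g - c kt = (c gt - c g - c t) - (c kt - c k - c t) := by abel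
    rw [e1] at a1
    rw [e2] at a2
    rw [e3] at a3
    generalize c gt - c g - c t = ω at a1 a3 ⊢
    generalize c kt - c k - c t = ω' at a2 a3 ⊢
    simp only [map_sub, AddMonoidHom.sub_apply] at a3
    have := hB ω ω'
    linarith
  -- `B (t, ω (k, t)) = 0`
  have h3 : ∀ k ∈ Red, ∀ t ∈ Red, ∀ kt ∈ Red, π kt = π k * π t →
      B (c t) (c kt - c k - c t) = 0 := by
    intro k hk t ht kt hkt e
    refine L.pow hc (B.flip (c kt - c k - c t)) ht ?_
    intro g hg g' hg' e'
    have := h2 g hg k hk t ht g' hg' kt hkt e' e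
    generalize c kt - c k - c t = ω' at this ⊢
    simp only [map_sub, AddMonoidHom.sub_apply] at this
    simp only [AddMonoidHom.flip_apply]
    linarith
  -- `B (t, t) = 0`
  have h4 : ∀ t ∈ Red, B (c t) (c t) = 0 := by
    intro t ht
    refine L.pow hc (B (c t)) ht ?_
    intro g hg g' hg' e'
    have := h3 g hg t ht g' hg' e'
    rw [map_sub, map_sub] at this
    linarith
  have h5 : ∀ k ∈ Red, ∀ t ∈ Red, ∀ kt ∈ Red, π kt = π k * π t →
      B (c t) (c kt) = B (c t) (c k) := by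
    intro k hk t ht kt hkt e
    have := h3 k hk t ht kt hkt e
    rw [map_sub, map_sub, h4 t ht] at this
    linarith
  -- Euclid
  have h6 : ∀ z : K, z ≠ 0 → ∀ n a b : ℕ, a + b ≤ n → ∀ x ∈ Red, ∀ y ∈ Red, π x = z ^ a →
      π y = z ^ b → B (c x) (c y) = 0 := by
    intro z hz n
    induction n with
    | zero =>
      intro a b hab x hx y hy hxa hyb
      have ha0 : a = 0 := by omega
      subst ha0
      have h1 : x = 1 := L.uniq x hx 1 L.one_mem (by rw [hxa, pow_zero, map_one])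
      rw [h1, hc.one, map_zero, AddMonoidHom.zero_apply]
    | succ n ih =>
      intro a b hab x hx y hy hxa hyb
      rcases Nat.eq_zero_or_pos a with ha | ha
      · subst ha
        have h1 : x = 1 := L.uniq x hx 1 L.one_mem (by rw [hxa, pow_zero, map_one])
        rw [h1, hc.one, map_zero, AddMonoidHom.zero_apply]
      · rcases Nat.eq_zero_or_pos b with hb | hb
        · subst hb
          have h1 : y = 1 := L.uniq y hy 1 L.one_mem (by rw [hyb, pow_zero, map_one])
          rw [h1, hc.one, map_zero]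
        · rcases le_total a b with hle | hle
          · obtain ⟨y', hy', hyy⟩ := L.surj (z ^ (b - a)) (pow_ne_zero _ hz)
            rw [h5 y' hy' x hx y hy (by rw [hyb, hyy, hxa, ← pow_add]; congr 1; omega)]
            exact ih a (b - a) (by omega) x hx y' hy' hxa hyy
          · obtain ⟨x', hx', hxx⟩ := L.surj (z ^ (a - b)) (pow_ne_zero _ hz)
            rw [hB, h5 x' hx' y hy x hx (by rw [hxa, hxx, hyb, ← pow_add]; congr 1; omega), hB]
            exact ih (a - b) b (by omega) x' hx' y hy hxx hyb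
  have h7 : ∀ x ∈ Red, ∀ y ∈ Red, B (c x) (c y) = 0 := by
    intro x hx y hy
    obtain ⟨z, a, b, hz, h1, h2⟩ := L.locfin.cyc (L.nz x hx) (L.nz y hy)
    exact h6 z hz (a + b) a b le_rfl x hx y hy h1 h2
  have h8 : ∀ x ∈ Red, B (c x) w = 0 := fun x hx =>
    VS.app (B (c x)) (fun a ha => SS.app L.ne hc (B (c x)) (fun y hy => h7 x hx y hy) ha) hw
  exact VS.app (B.flip w) (fun a ha => SS.app L.ne hc (B.flip w) (fun x hx => h8 x hx) ha) hv

end lev

end Pool.Agent.Q22.GW
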