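import Pool.Agent.Q22.GW.Tower

/-!
# The tower of the polynomial ring over an algebraic extension of `F_p`
-/

set_option linter.unusedSectionVars false

namespace Pool.Agent.Q22.GW

open Polynomial

/-- algebraic extensions of `F_p` -/
theorem locFin_of_algebraic (p : ℕ) [Fact p.Prime] (K : Type) [Field K] [Algebra (ZMod p) K]
    [Algebra.IsAlgebraic (ZMod p) K] : LocFin K := by
  intro x y
  have hint : ∀ z ∈ ({x, y} : Set K), IsIntegral (ZMod p) z := fun z _ =>
    (Algebra.IsAlgebraic.isAlgebraic z).isIntegral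
  let E := IntermediateField.adjoin (ZMod p) ({x, y} : Set K)
  haveI : FiniteDimensional (ZMod p) E :=
    IntermediateField.finiteDimensional_adjoin hint
  haveI : Finite E := Module.finite_of_finite (ZMod p)
  refine ⟨E.toSubfield, this, ?_, ?_⟩
  · exact IntermediateField.subset_adjoin (ZMod p) _ (by simp)
  · exact IntermediateField.subset_adjoin (ZMod p) _ (by simp)

variable (k : Type) [Field k]

/-- polynomials of degree at most `d` -/
def RedP (d : ℕ) : Set k[X] := {a | a ≠ 0 ∧ a.natDegree ≤ d}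

/-- monic irreducible polynomials of degree `d + 1` -/
def PrP (d : ℕ) : Set k[X] := {P | P.Monic ∧ Irreducible P ∧ P.natDegree = d + 1}

theorem locFin_adjoinRoot (p : ℕ) [Fact p.Prime] [Algebra (ZMod p) k]
    [Algebra.IsAlgebraic (ZMod p) k] (P : k[X]) [Fact (Irreducible P)] :
    LocFin (AdjoinRoot P) := by
  have h0 : P ≠ 0 := (Fact.out : Irreducible P).ne_zero
  haveI : Module.Finite k (AdjoinRoot P) := (AdjoinRoot.powerBasis h0).finite
  haveI : Algebra.IsAlgebraic k (AdjoinRoot P) := Algebra.IsAlgebraic.of_finite k (AdjoinRoot P)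
  haveI : Algebra.IsAlgebraic (ZMod p) (AdjoinRoot P) :=
    Algebra.IsAlgebraic.trans (ZMod p) k (AdjoinRoot P)
  exact locFin_of_algebraic p (AdjoinRoot P)

theorem lev_poly (p : ℕ) [Fact p.Prime] [Algebra (ZMod p) k]
    [Algebra.IsAlgebraic (ZMod p) k] (d : ℕ) (P : k[X]) (hP : P ∈ PrP k d) :
    ∃ (K : Type) (_ : Field K) (π : k[X] →+* K), Lev (RedP k d) P π := by
  obtain ⟨hm, hi, hdeg⟩ := hP
  haveI : Fact (Irreducible P) := ⟨hi⟩
  have small : ∀ a : k[X], a.natDegree ≤ d → P ∣ a → a = 0 := by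
    intro a ha hPa
    by_contra h0
    have := natDegree_le_of_dvd hPa h0
    omega
  refine ⟨AdjoinRoot P, inferInstance, AdjoinRoot.mk P, ?_⟩
  constructor
  · exact locFin_adjoinRoot k p P
  · exact ⟨one_ne_zero, by simp⟩
  · exact hi.ne_zero
  · exact fun a h => AdjoinRoot.mk_eq_zero.mp h
  · exact AdjoinRoot.mk_self
  · exact fun a ha => ha.1
  · exact fun a ha h => ha.1 (small a ha.2 (AdjoinRoot.mk_eq_zero.mp h))
  · intro z hz
    obtain ⟨b, rfl⟩ := AdjoinRoot.mk_surjective z
    have h1 : AdjoinRoot.mk P (b %ₘ P) = AdjoinRoot.mk P b := by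
      rw [AdjoinRoot.mk_eq_mk]
      have h2 := modByMonic_add_div b P
      exact ⟨-(b /ₘ P), by linear_combination h2⟩
    refine ⟨b %ₘ P, ⟨?_, ?_⟩, h1⟩
    · intro h0
      apply hz
      rw [← h1, h0, map_zero]
    · have := natDegree_modByMonic_lt b hm (by
        rintro rfl
        simp at hdeg)
      omega
  · intro a ha b hb h
    have h1 := small (a - b) ((natDegree_sub_le a b).trans (max_le ha.2 hb.2))
      (AdjoinRoot.mk_eq_mk.mp h)
    exact sub_eq_zero.mp h1
  · intro a ha b hb h
    exact SS.of ⟨sub_ne_zero.2 h, (natDegree_sub_le a b).trans (max_le ha.2 hb.2)⟩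
  · intro a ha h
    refine ⟨sub_ne_zero.2 h, (natDegree_sub_le a 1).trans (max_le ha.2 (by simp))⟩
  · intro a1 h1 a2 h2 b1 h3 b2 h4 C hC hC0
    refine SS.of ⟨hC0, ?_⟩
    have e1 : (P * C).natDegree = d + 1 + C.natDegree := by
      rw [natDegree_mul hi.ne_zero hC0, hdeg]
    have e2 : (a1 * a2 - b1 * b2).natDegree ≤ d + d := by
      refine (natDegree_sub_le _ _).trans (max_le ?_ ?_)
      · exact natDegree_mul_le.trans (add_le_add h1.2 h2.2)
      · exact natDegree_mul_le.trans (add_le_add h3.2 h4.2)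
    rw [hC, e1] at e2
    omega

theorem tower_poly (p : ℕ) [Fact p.Prime] [Algebra (ZMod p) k]
    [Algebra.IsAlgebraic (ZMod p) k] : Tower (RedP k) (PrP k) := by
  have nd : ∀ d, ∀ P ∈ PrP k d, ∀ a ∈ RedP k d, ¬ P ∣ a := by
    intro d P hP a ha h
    have := natDegree_le_of_dvd h ha.1
    have h1 := hP.2.2
    have h2 := ha.2
    omega
  have eq_of_dvd : ∀ d, ∀ P ∈ PrP k d, ∀ Q ∈ PrP k d, P ∣ Q → P = Q := by
    intro d P hP Q hQ h
    exact eq_of_monic_of_associated hP.1 hQ.1 (hP.2.1.associated_of_dvd hQ.2.1 h)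
  constructor
  · rintro a ⟨h1, h2⟩
    rw [isUnit_iff_degree_eq_zero, degree_eq_natDegree h1]
    have : a.natDegree = 0 := by omega
    rw [this]
    rfl
  · exact fun d a ha => ha.1
  · exact fun d a ha => ⟨ha.1, ha.2.trans (Nat.le_succ d)⟩
  · exact fun d P hP => ⟨hP.2.1.ne_zero, hP.2.2.le⟩
  · rintro d a ⟨h1, h2⟩
    by_cases h3 : a.natDegree ≤ d
    · exact Submonoid.subset_closure (Or.inl (SS.of ⟨h1, h3⟩))
    · have h4 : a.natDegree = d + 1 := by omega
      have hu : ¬ IsUnit a := by
        intro hu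
        have := natDegree_eq_zero_of_isUnit hu
        omega
      by_cases hirr : Irreducible a
      · have hl : a.leadingCoeff ≠ 0 := leadingCoeff_ne_zero.2 h1
        have e1 : a = C a.leadingCoeff * (a * C a.leadingCoeff⁻¹) := by
          rw [mul_comm a, ← mul_assoc, ← C_mul, mul_inv_cancel₀ hl, C_1, one_mul]
        have hm : (a * C a.leadingCoeff⁻¹).Monic := monic_mul_leadingCoeff_inv h1
        have hu2 : IsUnit (C a.leadingCoeff⁻¹ : k[X]) :=
          (isUnit_iff_ne_zero.2 (inv_ne_zero hl)).map C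
        have h5 : a * C a.leadingCoeff⁻¹ ∈ PrP k d := by
          refine ⟨hm, (irreducible_mul_isUnit hu2).2 hirr, ?_⟩
          rw [natDegree_mul_C (inv_ne_zero hl), h4]
        rw [e1]
        refine mul_mem (Submonoid.subset_closure (Or.inl (SS.unit ?_)))
          (Submonoid.subset_closure (Or.inr h5))
        exact (isUnit_iff_ne_zero.2 hl).map C
      · rw [irreducible_iff] at hirr
        push Not at hirr
        obtain ⟨x, y, hxy, hx, hy⟩ := hirr hu
        have hx0 : x ≠ 0 := by
          rintro rfl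
          exact h1 (by rw [hxy, zero_mul])
        have hy0 : y ≠ 0 := by
          rintro rfl
          exact h1 (by rw [hxy, mul_zero])
        have hdeg := natDegree_mul hx0 hy0
        rw [← hxy, h4] at hdeg
        have hx1 : x.natDegree ≠ 0 := by
          intro h
          apply hx
          rw [isUnit_iff_degree_eq_zero, degree_eq_natDegree hx0, h]
          rfl
        have hy1 : y.natDegree ≠ 0 := by
          intro h
          apply hy
          rw [isUnit_iff_degree_eq_zero, degree_eq_natDegree hy0, h]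
          rfl
        rw [hxy]
        exact mul_mem (Submonoid.subset_closure (Or.inl (SS.of ⟨hx0, by omega⟩)))
          (Submonoid.subset_closure (Or.inl (SS.of ⟨hy0, by omega⟩)))
  · exact fun d P hP => lev_poly k p d P hP
  · intro d P hP Q hQ h
    refine SS.of ⟨sub_ne_zero.2 h, ?_⟩
    have h1 : (P - Q).degree < P.degree := by
      apply degree_sub_lt
      · rw [degree_eq_natDegree hP.2.1.ne_zero, degree_eq_natDegree hQ.2.1.ne_zero, hP.2.2,
          hQ.2.2]
      · exact hP.2.1.ne_zero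
      · rw [hP.1.leadingCoeff, hQ.1.leadingCoeff]
    have h2 := natDegree_lt_natDegree (sub_ne_zero.2 h) h1
    rw [hP.2.2] at h2
    omega
  · intro d P hP Q hQ h a ha b1 hb1 b2 hb2 C hC
    have hC0 : C ≠ 0 := by
      rintro rfl
      rw [mul_zero] at hC
      have h1 : Q ∣ b1 * b2 := ⟨a, by linear_combination (-1 : k[X]) * hC⟩
      rcases hQ.2.1.prime.dvd_or_dvd h1 with h2 | h2
      · exact nd d Q hQ b1 hb1 h2
      · exact nd d Q hQ b2 hb2 h2
    refine SS.of ⟨hC0, ?_⟩
    have e1 : (P * C).natDegree = d + 1 + C.natDegree := by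
      rw [natDegree_mul hP.2.1.ne_zero hC0, hP.2.2]
    have e2 : (Q * a - b1 * b2).natDegree ≤ d + 1 + d := by
      refine (natDegree_sub_le _ _).trans (max_le ?_ ?_)
      · exact natDegree_mul_le.trans (add_le_add hQ.2.2.le ha.2)
      · refine natDegree_mul_le.trans ?_
        have := hb1.2
        have := hb2.2
        omega
    rw [hC, e1] at e2
    omega
  · intro d P hP Q hQ Q' hQ' h1 h2 h3
    obtain ⟨K, _, π, L⟩ := lev_poly k p d P hP
    have hQ0 : π Q ≠ 0 := by
      intro h
      exact h1 (eq_of_dvd d P hP Q hQ (L.ker Q h))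
    have hQ0' : π Q' ≠ 0 := by
      intro h
      exact h2 (eq_of_dvd d P hP Q' hQ' (L.ker Q' h))
    obtain ⟨a, ha, haπ⟩ := L.surj (π Q' / π Q) (div_ne_zero hQ0' hQ0)
    obtain ⟨C, hC⟩ := L.ker (Q * a - Q' * 1) (by
      rw [map_sub, map_mul, map_mul, haπ, map_one]; field_simp; ring)
    have hC0 : C ≠ 0 := by
      rintro rfl
      rw [mul_zero] at hC
      exact h3 (eq_of_dvd d Q hQ Q' hQ' ⟨a, by linear_combination (-1 : k[X]) * hC⟩)
    refine ⟨a, SS.of ha, 1, one_mem _, C, SS.of ⟨hC0, ?_⟩, hC⟩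
    have e1 : (P * C).natDegree = d + 1 + C.natDegree := by
      rw [natDegree_mul hP.2.1.ne_zero hC0, hP.2.2]
    have e2 : (Q * a - Q' * 1).natDegree ≤ d + 1 + d := by
      refine (natDegree_sub_le _ _).trans (max_le ?_ ?_)
      · exact natDegree_mul_le.trans (add_le_add hQ.2.2.le ha.2)
      · rw [mul_one, hQ'.2.2]
        omega
    rw [hC, e1] at e2
    omega

end Pool.Agent.Q22.GW
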