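import Pool.Agent.Q22.GW.E

/-!
# The induction over all primes
-/

set_option linter.unusedSectionVars false

namespace Pool.Agent.Q22.GW

variable {R : Type} [CommRing R] [IsDomain R] {W : Type} [AddCommGroup W]

/-- the sets of reduced elements and of primes of all levels -/
structure Tower (Red Pr : ℕ → Set R) : Prop where
  base : ∀ a ∈ Red 0, IsUnit a
  ne : ∀ d, ∀ a ∈ Red d, a ≠ 0
  mono : ∀ d, Red d ⊆ Red (d + 1)
  prMem : ∀ d, Pr d ⊆ Red (d + 1)
  gen : ∀ d, ∀ a ∈ Red (d + 1), a ∈ Submonoid.closure ((SS (Red d) : Set R) ∪ Pr d)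
  lev : ∀ d, ∀ P ∈ Pr d, ∃ (K : Type) (_ : Field K) (π : R →+* K), Lev (Red d) P π
  sub : ∀ d, ∀ P ∈ Pr d, ∀ Q ∈ Pr d, P ≠ Q → P - Q ∈ SS (Red d)
  quo : ∀ d, ∀ P ∈ Pr d, ∀ Q ∈ Pr d, P ≠ Q → ∀ a ∈ Red d, ∀ b1 ∈ Red d, ∀ b2 ∈ Red d, ∀ C,
    Q * a - b1 * b2 = P * C → C ∈ SS (Red d)
  tri : ∀ d, ∀ P ∈ Pr d, ∀ Q ∈ Pr d, ∀ Q' ∈ Pr d, P ≠ Q → P ≠ Q' → Q ≠ Q' →
    ∃ a ∈ SS (Red d), ∃ b ∈ SS (Red d), ∃ C ∈ SS (Red d), Q * a - Q' * b = P * C

section

variable {Red Pr : ℕ → Set R} (T : Tower Red Pr) {c : R → W} (hc : IsCl c)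
include T

theorem Tower.mono' {d e : ℕ} (h : d ≤ e) : Red d ⊆ Red e := by
  induction h with
  | refl => exact subset_rfl
  | step _ ih => exact ih.trans (T.mono _)

theorem Tower.neG {d : ℕ} {a : R} (h : a ∈ (SS (Red d) : Set R) ∪ Pr d) : a ≠ 0 := by
  rcases h with h | h
  · exact SS.ne (T.ne d) h
  · exact T.ne (d + 1) a (T.prMem d h)

include hc

/-- additive functions which vanish on the generators vanish -/
theorem Tower.app {d : ℕ} (f : W →+ ℚ) (h : ∀ a ∈ (SS (Red d) : Set R) ∪ Pr d, f (c a) = 0)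
    {a : R} (ha : a ∈ SS (Red (d + 1))) : f (c a) = 0 := by
  refine SS.app (T.ne (d + 1)) hc f ?_ ha
  intro x hx
  have h1 : x ≠ 0 ∧ f (c x) = 0 := by
    have h2 := T.gen d x hx
    clear hx
    induction h2 using Submonoid.closure_induction with
    | mem y hy => exact ⟨T.neG hy, h y hy⟩
    | one => exact ⟨one_ne_zero, by rw [hc.one, map_zero]⟩
    | mul y z _ _ hy hz =>
      exact ⟨mul_ne_zero hy.1 hz.1, by rw [hc.mul y z hy.1 hz.1, map_add, hy.2, hz.2, add_zero]⟩
  exact h1.2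

/-- bilinear forms which vanish on the symbols vanish -/
theorem Tower.k2 (D : ℕ) (τ : W →+ W →+ ℚ)
    (alt : ∀ a ∈ SS (Red D), ∀ b ∈ SS (Red D), τ (c a) (c b) = - τ (c b) (c a))
    (H : ∀ a1 ∈ Red D, ∀ a2 ∈ Red D, ∀ b1 ∈ Red D, ∀ b2 ∈ Red D,
      a1 * a2 - b1 * b2 ∈ SS (Red D) → EE c τ (a1 * a2) (b1 * b2) = 0) :
    ∀ d, d ≤ D → ∀ a ∈ SS (Red d), ∀ b ∈ SS (Red d), τ (c a) (c b) = 0 := by
  intro d
  induction d with
  | zero =>
    intro _ a ha b hb
    have h0 : ∀ b : R, (τ.flip (c b)) (c a) = 0 := fun b =>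
      SS.app (T.ne 0) hc (τ.flip (c b)) (fun x hx => hc.app_unit _ (T.base x hx)) ha
    exact h0 b
  | succ d ih =>
    intro hd
    have ih' := ih (by omega)
    have hdD : Red d ⊆ Red D := T.mono' (by omega)
    have hSD : SS (Red d) ≤ SS (Red D) := SS.mono hdD
    have hPD : ∀ P ∈ Pr d, P ∈ Red D := fun P hP => T.mono' hd (T.prMem d hP)
    have h1D : ∀ P ∈ Pr d, (1 : R) ∈ Red D := by
      intro P hP
      obtain ⟨K, _, π, L⟩ := T.lev d P hP
      exact hdD L.one_mem
    -- one prime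
    have h1 : ∀ P ∈ Pr d, ∀ a ∈ SS (Red d), τ (c a) (c P) = 0 := by
      intro P hP a ha
      obtain ⟨K, _, π, L⟩ := T.lev d P hP
      refine L.hom hc (τ.flip (c P)) ?_ (VS.of c ha)
      intro a1 h1 a2 h2 a3 h3 e
      simp only [AddMonoidHom.flip_apply]
      obtain ⟨C, hC⟩ := L.ker (a3 * 1 - a1 * a2) (by
        rw [map_sub, map_mul, map_mul, e, map_one]; ring)
      by_cases hC0 : C = 0
      · have : a3 = a1 * a2 := by
          rw [hC0, mul_zero] at hC
          linear_combination hC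
        rw [this, hc.mul a1 a2 (L.ne a1 h1) (L.ne a2 h2), map_add, AddMonoidHom.add_apply]
      · have hCS := L.quo a3 h3 1 L.one_mem a1 h1 a2 h2 C hC hC0
        have hPC : P * C ∈ SS (Red D) := mul_mem (SS.of (hPD P hP)) (hSD hCS)
        have h5 := H a3 (hdD h3) 1 (hdD L.one_mem) a1 (hdD h1) a2 (hdD h2) (by rw [hC]; exact hPC)
        unfold EE at h5
        rw [hC, mul_one, hc.mul a1 a2 (L.ne a1 h1) (L.ne a2 h2), hc.mul P C L.P_ne hC0] at h5
        simp only [map_add, AddMonoidHom.add_apply] at h5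
        have z1 := ih' a3 (SS.of h3) a1 (SS.of h1)
        have z2 := ih' a3 (SS.of h3) a2 (SS.of h2)
        have z3 := ih' a1 (SS.of h1) C hCS
        have z4 := ih' a2 (SS.of h2) C hCS
        have z5 := ih' C hCS a3 (SS.of h3)
        have z6 := alt P (SS.of (hPD P hP)) a3 (SS.of (hdD h3))
        linarith
    have h2 : ∀ P ∈ Pr d, ∀ a ∈ SS (Red d), τ (c P) (c a) = 0 := by
      intro P hP a ha
      rw [alt P (SS.of (hPD P hP)) a (hSD ha), h1 P hP a ha, neg_zero]
    have h3 : ∀ P ∈ Pr d, ∀ Q ∈ Pr d, τ (c P) (c Q) = 0 := by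
      intro P hP Q hQ
      by_cases hPQ : P = Q
      · subst hPQ
        have := alt P (SS.of (hPD P hP)) P (SS.of (hPD P hP))
        linarith
      · have hr := T.sub d P hP Q hQ hPQ
        have h5 := H P (hPD P hP) 1 (h1D P hP) Q (hPD Q hQ) 1 (h1D P hP) (by
          rw [mul_one, mul_one]; exact hSD hr)
        unfold EE at h5
        rw [mul_one, mul_one, h1 P hP _ hr, h2 Q hQ _ hr] at h5
        linarith
    have h4 : ∀ a ∈ (SS (Red d) : Set R) ∪ Pr d, ∀ b ∈ (SS (Red d) : Set R) ∪ Pr d,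
        τ (c a) (c b) = 0 := by
      rintro a (ha | ha) b (hb | hb)
      · exact ih' a ha b hb
      · exact h1 b hb a ha
      · exact h2 a ha b hb
      · exact h3 a ha b hb
    intro a ha b hb
    refine T.app hc (τ (c a)) (fun y hy => ?_) hb
    exact T.app hc (τ.flip (c y)) (fun x hx => h4 x hx y hy) ha

end

/-- the trilinear forms -/
structure Tri (c : R → W) (F : W →+ W →+ W →+ ℚ) : Prop where
  sym : ∀ x y z, F x y z = F y x z
  cyc : ∀ x y z, F x y z + F y z x + F z x y = 0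
  rel : ∀ A B Z : R, A ≠ 0 → B ≠ 0 → Z ≠ 0 → A - B = Z →
    F (c A - c Z) (c A - c Z) (c B - c Z) = 0
  rel' : ∀ A B Z : R, A ≠ 0 → B ≠ 0 → Z ≠ 0 → A - B = Z →
    F (c B - c Z) (c B - c Z) (c A - c Z) = 0

section

variable {Red Pr : ℕ → Set R} (T : Tower Red Pr) {c : R → W} (hc : IsCl c)
  {F : W →+ W →+ W →+ ℚ} (X : Tri c F)
include T hc X

/-- extension of vanishing to the subgroup generated by the small elements -/
theorem Tower.vs {d : ℕ} (h : ∀ a ∈ SS (Red d), ∀ b ∈ SS (Red d), ∀ e ∈ SS (Red d),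
    F (c a) (c b) (c e) = 0) {u v w : W} (hu : u ∈ VS c (Red d)) (hv : v ∈ VS c (Red d))
    (hw : w ∈ VS c (Red d)) : F u v w = 0 := by
  have h1 : ∀ a ∈ SS (Red d), ∀ b ∈ SS (Red d), F (c a) (c b) w = 0 := fun a ha b hb =>
    VS.app (F (c a) (c b)) (fun e he => h a ha b hb e he) hw
  have h2 : ∀ a ∈ SS (Red d), F (c a) v w = 0 := fun a ha =>
    VS.app ((F (c a)).flip w) (fun b hb => h1 a ha b hb) hv
  exact VS.app ((F.flip v).flip w) (fun a ha => h2 a ha) hu

/-- one prime -/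
theorem Tower.step1 {d : ℕ} (h : ∀ a ∈ SS (Red d), ∀ b ∈ SS (Red d), ∀ e ∈ SS (Red d),
    F (c a) (c b) (c e) = 0) {P : R} (hP : P ∈ Pr d) {v w : W} (hv : v ∈ VS c (Red d))
    (hw : w ∈ VS c (Red d)) : F (c P) v w = 0 ∧ F (c P) v (c P) = 0 := by
  obtain ⟨K, _, π, L⟩ := T.lev d P hP
  set p := c P with hp
  set β : W →+ W →+ ℚ := F p with hβ
  set γ : W →+ ℚ := (F p).flip p with hγ
  -- values with `P` in the last place
  have l1 : ∀ a b, F a b p = - β a b - β b a := by
    intro a b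
    have h1 := X.cyc a b p
    have h2 := X.sym b p a
    simp only [hβ]
    linarith
  have l2 : ∀ a, F p p a = - 2 * γ a := by
    intro a
    have h1 := X.cyc p p a
    have h2 := X.sym a p p
    simp only [hγ, AddMonoidHom.flip_apply]
    linarith
  have l3 : F p p p = 0 := by
    have h1 := X.cyc p p p
    linarith
  -- the relation
  have rel : ∀ A ∈ SS (Red d), ∀ B ∈ SS (Red d), ∀ C ∈ SS (Red d), A - B = P * C →
      β (c A - c C) (c A - c B) + γ (c A - c B) = 0 ∧
      β (c B - c C) (c A - c B) + γ (c A - c B) = 0 := by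
    intro A hA B hB C hC hABC
    have nA := L.neS hA
    have nB := L.neS hB
    have nC := L.neS hC
    have nZ := mul_ne_zero L.P_ne nC
    have r1 := X.rel A B (P * C) nA nB nZ hABC
    have r2 := X.rel' A B (P * C) nA nB nZ hABC
    rw [hc.mul P C L.P_ne nC, ← hp] at r1 r2
    have ev : c A - (p + c C) = (c A - c C) - p := by abel
    have ew : c B - (p + c C) = (c B - c C) - p := by abel
    rw [ev, ew] at r1 r2
    have hv : c A - c C ∈ VS c (Red d) := sub_mem (VS.of c hA) (VS.of c hC)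
    have hw : c B - c C ∈ VS c (Red d) := sub_mem (VS.of c hB) (VS.of c hC)
    have hvw : c A - c B = (c A - c C) - (c B - c C) := by abel
    rw [hvw]
    generalize c A - c C = v at *
    generalize c B - c C = w at *
    have z1 := T.vs hc X h hv hv hw
    have z2 := T.vs hc X h hw hw hv
    have g1 := l1 v v
    have g2 := l1 w w
    have g3 := l2 v
    have g4 := l2 w
    have s1 := X.sym v p w
    have s2 := X.sym v p p
    have s3 := X.sym w p v
    have s4 := X.sym w p p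
    simp only [map_sub, AddMonoidHom.sub_apply] at r1 r2 ⊢
    simp only [hβ, hγ, AddMonoidHom.flip_apply] at *
    constructor <;> linarith
  -- `β` is alternating
  have hsymB : ∀ u ∈ VS c (Red d), ∀ u' ∈ VS c (Red d), (β + β.flip) u u' = 0 := by
    intro u hu u' hu'
    refine L.quad hc (β + β.flip) (fun x y => ?_) ?_ hu hu'
    · simp only [AddMonoidHom.add_apply, AddMonoidHom.flip_apply]
      ring
    · intro a1 h1 a2 h2 b1 h3 b2 h4 e
      obtain ⟨C, hC⟩ := L.ker (a1 * a2 - b1 * b2) (by rw [map_sub, e, sub_self])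
      have e1 : c a1 + c a2 = c (a1 * a2) := (hc.mul a1 a2 (L.ne a1 h1) (L.ne a2 h2)).symm
      have e2 : c a1 + c a2 - c b1 - c b2 = c (a1 * a2) - c (b1 * b2) := by
        rw [hc.mul b1 b2 (L.ne b1 h3) (L.ne b2 h4), e1]; abel
      rw [e2]
      by_cases hC0 : C = 0
      · have : a1 * a2 = b1 * b2 := by
          rw [hC0, mul_zero] at hC
          exact sub_eq_zero.mp hC
        rw [this, sub_self, map_zero]
      · have hCS := L.quo a1 h1 a2 h2 b1 h3 b2 h4 C hC hC0
        obtain ⟨r1, r2⟩ := rel _ (mul_mem (SS.of h1) (SS.of h2)) _ (mul_mem (SS.of h3) (SS.of h4))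
          C hCS hC
        have e3 : c (a1 * a2) - c (b1 * b2) = (c (a1 * a2) - c C) - (c (b1 * b2) - c C) := by abel
        simp only [AddMonoidHom.add_apply, AddMonoidHom.flip_apply]
        have e4 : β (c (a1 * a2) - c (b1 * b2)) (c (a1 * a2) - c (b1 * b2)) =
            β (c (a1 * a2) - c C) (c (a1 * a2) - c (b1 * b2)) -
            β (c (b1 * b2) - c C) (c (a1 * a2) - c (b1 * b2)) := by
          rw [← AddMonoidHom.sub_apply, ← map_sub, ← e3]
        rw [e4]
        linarith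
  have halt : ∀ u ∈ VS c (Red d), ∀ u' ∈ VS c (Red d), β u u' = - β u' u := by
    intro u hu u' hu'
    have := hsymB u hu u' hu'
    simp only [AddMonoidHom.add_apply, AddMonoidHom.flip_apply] at this
    linarith
  have Q : Loc (Red d) P c β γ := by
    refine ⟨fun a ha b hb => halt _ (VS.of c ha) _ (VS.of c hb), ?_⟩
    intro A hA B hB C hC e
    obtain ⟨r1, r2⟩ := rel A hA B hB C hC e
    simp only [map_sub, AddMonoidHom.sub_apply] at r1 r2
    have t1 := halt (c A) (VS.of c hA) (c A) (VS.of c hA)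
    have t2 := halt (c C) (VS.of c hC) (c A) (VS.of c hA)
    have t3 := halt (c C) (VS.of c hC) (c B) (VS.of c hB)
    have t4 := halt (c B) (VS.of c hB) (c B) (VS.of c hB)
    have t5 := halt (c A) (VS.of c hA) (c B) (VS.of c hB)
    linarith
  -- `β = 0`
  have hβ0 : ∀ a ∈ SS (Red d), ∀ b ∈ SS (Red d), β (c a) (c b) = 0 :=
    T.k2 hc d β Q.alt (fun a1 h1 a2 h2 b1 h3 b2 h4 hD => Q.main hc L h1 h2 h3 h4 hD) d le_rfl
  have hγ0 : γ v = 0 := by
    refine L.hom hc γ ?_ hv
    intro a1 h1 a2 h2 a3 h3 e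
    obtain ⟨C, hC⟩ := L.ker (a3 * 1 - a1 * a2) (by
      rw [map_sub, map_mul, map_mul, e, map_one]; ring)
    by_cases hC0 : C = 0
    · have : a3 = a1 * a2 := by
        rw [hC0, mul_zero] at hC
        linear_combination hC
      rw [this, hc.mul a1 a2 (L.ne a1 h1) (L.ne a2 h2), map_add]
    · have hCS := L.quo a3 h3 1 L.one_mem a1 h1 a2 h2 C hC hC0
      have h5 := Q.rel (a3 * 1) (mul_mem (SS.of h3) (one_mem _)) (a1 * a2)
        (mul_mem (SS.of h1) (SS.of h2)) C hCS hC
      rw [hβ0 _ (mul_mem (SS.of h3) (one_mem _)) _ (mul_mem (SS.of h1) (SS.of h2)),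
        hβ0 _ (mul_mem (SS.of h1) (SS.of h2)) _ hCS,
        hβ0 _ hCS _ (mul_mem (SS.of h3) (one_mem _)), mul_one,
        hc.mul a1 a2 (L.ne a1 h1) (L.ne a2 h2), map_add] at h5
      linarith
  refine ⟨?_, hγ0⟩
  have h6 : ∀ a ∈ SS (Red d), β (c a) w = 0 := fun a ha =>
    VS.app (β (c a)) (fun b hb => hβ0 a ha b hb) hw
  exact VS.app (β.flip w) (fun a ha => h6 a ha) hv

/-- two primes -/
theorem Tower.step2 {d : ℕ} (h : ∀ a ∈ SS (Red d), ∀ b ∈ SS (Red d), ∀ e ∈ SS (Red d),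
    F (c a) (c b) (c e) = 0) {P Q : R} (hP : P ∈ Pr d) (hQ : Q ∈ Pr d) (hPQ : P ≠ Q) :
    (∀ v ∈ VS c (Red d), F (c Q) v (c P) = 0) ∧ F (c Q) (c Q) (c P) = 0 := by
  obtain ⟨K, _, π, L⟩ := T.lev d P hP
  obtain ⟨K', _, π', L'⟩ := T.lev d Q hQ
  set p := c P with hp
  set q := c Q with hq
  -- the values with one prime only
  have p1 : ∀ v ∈ VS c (Red d), ∀ w ∈ VS c (Red d), F p v w = 0 := fun v hv w hw =>
    (T.step1 hc X h hP hv hw).1
  have p2 : ∀ v ∈ VS c (Red d), F p v p = 0 := fun v hv => (T.step1 hc X h hP hv hv).2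
  have q1 : ∀ v ∈ VS c (Red d), ∀ w ∈ VS c (Red d), F q v w = 0 := fun v hv w hw =>
    (T.step1 hc X h hQ hv hw).1
  have q2 : ∀ v ∈ VS c (Red d), F q v q = 0 := fun v hv => (T.step1 hc X h hQ hv hv).2
  have key : ∀ a ∈ Red d, ∀ b1 ∈ Red d, ∀ b2 ∈ Red d, π Q * π a = π b1 * π b2 →
      F q q p = 2 * (F q (c b1) p + F q (c b2) p - F q (c a) p) := by
    intro a ha b1 hb1 b2 hb2 e
    obtain ⟨C, hC⟩ := L.ker (Q * a - b1 * b2) (by rw [map_sub, map_mul, map_mul, e, sub_self])
    have hCS := T.quo d P hP Q hQ hPQ a ha b1 hb1 b2 hb2 C hC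
    have nQ : Q ≠ 0 := L'.P_ne
    have nC := L.neS hCS
    have r1 := X.rel (Q * a) (b1 * b2) (P * C) (mul_ne_zero nQ (L.ne a ha))
      (mul_ne_zero (L.ne b1 hb1) (L.ne b2 hb2)) (mul_ne_zero L.P_ne nC) hC
    have r2 := X.rel' (Q * a) (b1 * b2) (P * C) (mul_ne_zero nQ (L.ne a ha))
      (mul_ne_zero (L.ne b1 hb1) (L.ne b2 hb2)) (mul_ne_zero L.P_ne nC) hC
    rw [hc.mul P C L.P_ne nC, hc.mul Q a nQ (L.ne a ha),
      hc.mul b1 b2 (L.ne b1 hb1) (L.ne b2 hb2), ← hp, ← hq] at r1 r2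
    have hv : c a - c C ∈ VS c (Red d) := sub_mem (VS.of c (SS.of ha)) (VS.of c hCS)
    have hw : c b1 + c b2 - c C ∈ VS c (Red d) :=
      sub_mem (add_mem (VS.of c (SS.of hb1)) (VS.of c (SS.of hb2))) (VS.of c hCS)
    have ev : q + c a - (p + c C) = q - p + (c a - c C) := by abel
    have ew : c b1 + c b2 - (p + c C) = (c b1 + c b2 - c C) - p := by abel
    rw [ev, ew] at r1 r2
    have hgoal : F q (c b1) p + F q (c b2) p - F q (c a) p =
        F q (c b1 + c b2 - c C) p - F q (c a - c C) p := by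
      simp only [map_add, map_sub, AddMonoidHom.add_apply, AddMonoidHom.sub_apply]
      ring
    rw [hgoal]
    generalize c a - c C = v at *
    generalize c b1 + c b2 - c C = w at *
    simp only [map_add, map_sub, AddMonoidHom.add_apply, AddMonoidHom.sub_apply] at r1 r2
    -- zero values
    have z1 := T.vs hc X h hv hv hw
    have z2 := T.vs hc X h hw hw hv
    have z3 := p1 v hv w hw
    have z4 := p1 w hw v hv
    have z5 := p1 v hv v hv
    have z6 := p1 w hw w hw
    have z7 := p2 v hv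
    have z8 := p2 w hw
    have y3 := q1 v hv w hw
    have y4 := q1 w hw v hv
    have y5 := q1 v hv v hv
    have y6 := q1 w hw w hw
    have y7 := q2 v hv
    have y8 := q2 w hw
    -- symmetries
    have s1 := X.sym q p w
    have s2 := X.sym q p p
    have s3 := X.sym v q w
    have s4 := X.sym v q p
    have s5 := X.sym v p w
    have s6 := X.sym v p p
    have s7 := X.sym w p q
    have s8 := X.sym w p p
    have s9 := X.sym w p v
    have s10 := X.sym w q p
    have s11 := X.sym w q q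
    have s12 := X.sym w p q
    have s13 := X.sym v q q
    have s17 := X.sym v p v
    have s18 := X.sym w p w
    have s19 := X.sym v q v
    have s20 := X.sym w q w
    -- cyclic relations
    have c1 := X.cyc v v p
    have c2 := X.cyc w w p
    have c3 := X.cyc w w q
    have c4 := X.cyc v v q
    have c5 := X.cyc p p v
    have c6 := X.cyc p p w
    have c7 := X.cyc q q w
    have c8 := X.cyc p p p
    have c9 := X.cyc q q p
    have c10 := X.cyc p p q
    have c11 := X.cyc p q w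
    have c12 := X.cyc v w p
    have c13 := X.cyc v w q
    have s14 := X.sym v w p
    have s15 := X.sym v w q
    have s16 := X.sym w v p
    linarith
  obtain ⟨ρ, hρ, hρπ⟩ := L.surj (π Q) (by
    intro h0
    obtain ⟨C, hC⟩ := L.ker Q h0
    have h1 := T.sub d Q hQ P hP hPQ.symm
    apply L.nzS h1
    rw [map_sub, h0, L.kerP, sub_self])
  have hμ : ∀ v ∈ VS c (Red d), F q v p = 0 := by
    intro v hv
    refine L.hom hc ((F q).flip p) ?_ hv
    intro a1 h1 a2 h2 a3 h3 e
    obtain ⟨a, ha, haπ⟩ := L.surj (π a3 / π ρ) (div_ne_zero (L.nz a3 h3) (L.nz ρ hρ))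
    have hρ0 := L.nz ρ hρ
    have k1 := key a ha a1 h1 a2 h2 (by rw [← hρπ, haπ, ← e]; field_simp)
    have k2 := key a ha a3 h3 1 L.one_mem (by rw [← hρπ, haπ, map_one]; field_simp)
    rw [hc.one, map_zero, AddMonoidHom.zero_apply] at k2
    simp only [AddMonoidHom.flip_apply]
    linarith
  refine ⟨hμ, ?_⟩
  have k := key 1 L.one_mem ρ hρ 1 L.one_mem (by rw [hρπ])
  rw [hμ _ (VS.of c (SS.of hρ)), hμ _ (VS.of c (SS.of L.one_mem))] at k
  linarith

/-- three primes -/
theorem Tower.step3 {d : ℕ} (h : ∀ a ∈ SS (Red d), ∀ b ∈ SS (Red d), ∀ e ∈ SS (Red d),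
    F (c a) (c b) (c e) = 0) {P Q Q' : R} (hP : P ∈ Pr d) (hQ : Q ∈ Pr d) (hQ' : Q' ∈ Pr d)
    (h1 : P ≠ Q) (h2 : P ≠ Q') (h3 : Q ≠ Q') : F (c Q) (c P) (c Q') = 0 := by
  obtain ⟨a, ha, b, hb, C, hC, e⟩ := T.tri d P hP Q hQ Q' hQ' h1 h2 h3
  have nP := T.ne _ _ (T.prMem d hP)
  have nQ := T.ne _ _ (T.prMem d hQ)
  have nQ' := T.ne _ _ (T.prMem d hQ')
  have na := SS.ne (T.ne d) ha
  have nb := SS.ne (T.ne d) hb
  have nC := SS.ne (T.ne d) hC
  have r1 := X.rel (Q * a) (Q' * b) (P * C) (mul_ne_zero nQ na) (mul_ne_zero nQ' nb)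
    (mul_ne_zero nP nC) e
  rw [hc.mul P C nP nC, hc.mul Q a nQ na, hc.mul Q' b nQ' nb] at r1
  set p := c P with hp
  set q := c Q with hq
  set q' := c Q' with hq'
  have hv : c a - c C ∈ VS c (Red d) := sub_mem (VS.of c ha) (VS.of c hC)
  have hw : c b - c C ∈ VS c (Red d) := sub_mem (VS.of c hb) (VS.of c hC)
  have ev : q + c a - (p + c C) = q - p + (c a - c C) := by abel
  have ew : q' + c b - (p + c C) = q' - p + (c b - c C) := by abel
  rw [ev, ew] at r1
  generalize c a - c C = v at *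
  generalize c b - c C = w at *
  simp only [map_add, map_sub, AddMonoidHom.add_apply, AddMonoidHom.sub_apply] at r1
  have z1 := T.vs hc X h hv hv hw
  have a1 := (T.step1 hc X h hP hv hw).1
  have a2 := (T.step1 hc X h hP hv hv).1
  have a3 := (T.step1 hc X h hP hv hv).2
  have a4 := (T.step1 hc X h hP hw hw).2
  have b1 := (T.step1 hc X h hQ hv hw).1
  have b2 := (T.step1 hc X h hQ hv hv).1
  have b3 := (T.step1 hc X h hQ hv hv).2
  have b4 := (T.step1 hc X h hQ hw hw).2
  have d1 := (T.step1 hc X h hQ' hv hv).1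
  -- `P`, `Q`
  have e1 := (T.step2 hc X h hP hQ h1).1 v hv
  have e2 := (T.step2 hc X h hP hQ h1).1 w hw
  have e3 := (T.step2 hc X h hP hQ h1).2
  have e4 := (T.step2 hc X h hQ hP h1.symm).1 w hw
  have e5 := (T.step2 hc X h hQ hP h1.symm).2
  -- `P`, `Q'`
  have f1 := (T.step2 hc X h hQ' hP h2.symm).1 v hv
  have f2 := (T.step2 hc X h hQ' hP h2.symm).2
  -- `Q`, `Q'`
  have g1 := (T.step2 hc X h hQ' hQ h3.symm).1 v hv
  have g2 := (T.step2 hc X h hQ' hQ h3.symm).2
  rw [← hp, ← hq] at *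
  have s1 := X.sym q p q'
  have s2 := X.sym q p p
  have s3 := X.sym q p w
  have s4 := X.sym v q q'
  have s5 := X.sym v q p
  have s6 := X.sym v q w
  have s7 := X.sym v p q'
  have s8 := X.sym v p p
  have s9 := X.sym v p w
  have c1 := X.cyc v v q'
  have c2 := X.cyc v v p
  have c3 := X.cyc q q w
  have c4 := X.cyc p p w
  have c5 := X.cyc p p p
  have c6 := X.cyc p p q
  have c7 := X.cyc q p w
  have s10 := X.sym w q q
  have s11 := X.sym w p p
  have s12 := X.sym w q p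
  have s13 := X.sym v q' v
  have s14 := X.sym p q p
  have s15 := X.sym v p v
  have s16 := X.sym v q v
  have s17 := X.sym v q' v
  linarith

/-- the main theorem -/
theorem Tower.main (d : ℕ) : ∀ a ∈ SS (Red d), ∀ b ∈ SS (Red d), ∀ e ∈ SS (Red d),
    F (c a) (c b) (c e) = 0 := by
  induction d with
  | zero =>
    intro a ha b hb e he
    exact SS.app (T.ne 0) hc ((F.flip (c b)).flip (c e)) (fun x hx => hc.app_unit _ (T.base x hx)) ha
  | succ d h =>
    have V : ∀ {a : R}, a ∈ SS (Red d) → c a ∈ VS c (Red d) := fun ha => VS.of c ha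
    -- one prime in the first place
    have k1 : ∀ P ∈ Pr d, ∀ a ∈ SS (Red d), ∀ b ∈ SS (Red d), F (c P) (c a) (c b) = 0 :=
      fun P hP a ha b hb => (T.step1 hc X h hP (V ha) (V hb)).1
    have k2 : ∀ P ∈ Pr d, ∀ Q ∈ Pr d, ∀ a ∈ SS (Red d), F (c P) (c a) (c Q) = 0 := by
      intro P hP Q hQ a ha
      by_cases hPQ : P = Q
      · subst hPQ; exact (T.step1 hc X h hP (V ha) (V ha)).2
      · exact (T.step2 hc X h hQ hP (Ne.symm hPQ)).1 _ (V ha)
    have k3 : ∀ P ∈ Pr d, ∀ Q ∈ Pr d, F (c P) (c P) (c Q) = 0 := by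
      intro P hP Q hQ
      by_cases hPQ : P = Q
      · subst hPQ
        have := X.cyc (c P) (c P) (c P)
        linarith
      · exact (T.step2 hc X h hQ hP (Ne.symm hPQ)).2
    have k4 : ∀ P ∈ Pr d, ∀ Q ∈ Pr d, ∀ Q' ∈ Pr d, F (c P) (c Q) (c Q') = 0 := by
      intro P hP Q hQ Q' hQ'
      by_cases h1 : P = Q
      · subst h1; exact k3 P hP Q' hQ'
      · by_cases h2 : P = Q'
        · subst h2
          have e1 := k3 P hP Q hQ
          have e2 := X.cyc (c P) (c P) (c Q)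
          have e3 := X.sym (c Q) (c P) (c P)
          linarith
        · by_cases h3 : Q = Q'
          · subst h3
            have e1 := k3 Q hQ P hP
            have e2 := X.cyc (c Q) (c Q) (c P)
            have e3 := X.sym (c Q) (c P) (c Q)
            linarith
          · exact T.step3 hc X h hQ hP hQ' (Ne.symm h1) h3 h2
    have key : ∀ a ∈ (SS (Red d) : Set R) ∪ Pr d, ∀ b ∈ (SS (Red d) : Set R) ∪ Pr d,
        ∀ e ∈ (SS (Red d) : Set R) ∪ Pr d, F (c a) (c b) (c e) = 0 := by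
      rintro a (ha | ha) b (hb | hb) e (he | he)
      · exact h a ha b hb e he
      · have e1 := k1 e he a ha b hb
        have e2 := k1 e he b hb a ha
        have e3 := X.cyc (c a) (c b) (c e)
        have e4 := X.sym (c b) (c e) (c a)
        linarith
      · rw [X.sym]; exact k1 b hb a ha e he
      · rw [X.sym]; exact k2 b hb e he a ha
      · exact k1 a ha b hb e he
      · exact k2 a ha e he b hb
      · have e1 := k2 a ha b hb e he
        have e2 := k2 b hb a ha e he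
        have e3 := X.cyc (c a) (c b) (c e)
        have e4 := X.sym (c e) (c a) (c b)
        linarith
      · exact k4 a ha b hb e he
    intro a ha b hb e he
    refine T.app hc (F (c a) (c b)) (fun z hz => ?_) he
    refine T.app hc ((F (c a)).flip (c z)) (fun y hy => ?_) hb
    exact T.app hc ((F.flip (c y)).flip (c z)) (fun x hx => key x hx y hy z hz) ha

end

end Pool.Agent.Q22.GW
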